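import Pool.Agent.LibND37.Defs

/-!
A family of varieties over a base with good reduction, in linear algebra: the local system of the cohomology of the fibres,
with the monodromy operator of the local field and the weight filtration, and its cohomology theories (the cohomology of the
fibres, the cohomology of the base with coefficients in the local system).
-/

namespace Pool.Agent.AF37

open Module Pool.Agent.ND37 Pool.Agent.LibX1

/-- Weight-monodromy for `N` and `F` on `T / S`, in degree `w`: there is a monodromy filtration `M` of `N` on `T / S`, and
`F` is pure of weight `w + s` on `gr_s = M s / M (s - 1)` for all `s`. -/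
def WM {K H : Type} [Field K] [AddCommGroup H] [Module K H] (q : ℕ) (w : ℤ) (N F : Module.End K H)
    (S T : Submodule K H) : Prop :=
  ∃ M : ℤ → Submodule K H, RelMono N S T M ∧ ∀ s, PureGr q (w + s) F M s

/-- `V` is a module over a ring `A` (a local system: `A` is the algebra of the monodromy of the base), `W` is a finite
increasing filtration of `V` by submodules, `N₁` is an endomorphism of the module `V` with `N₁ (W k) ⊆ W (k - 2)`. -/
structure Family {A V : Type} [Ring A] [AddCommGroup V] [Module A V] (W : ℤ → Submodule A V)
    (N₁ : Module.End A V) : Prop where
  mono : ∀ k, W (k - 1) ≤ W k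
  bot : ∃ k, W k = ⊥
  top : ∃ k, W k = ⊤
  shift : ∀ k, ∀ v ∈ W k, N₁ v ∈ W (k - 2)

section

variable (K : Type) {A V : Type} (H : Type) [Field K] [Ring A] [Algebra K A] [AddCommGroup V] [Module K V] [Module A V]
  [IsScalarTower K A V] [AddCommGroup H] [Module K H] [Module (Module.End A V) H]
  [IsScalarTower K (Module.End A V) H]

/-- For a module `H` over the ring of endomorphisms of `V`: the subspace which belongs to `W k`, the sum of the `e H` for the
endomorphisms `e` of `V` with `e V ⊆ W k`. -/
def part (W : ℤ → Submodule A V) (k : ℤ) : Submodule K H :=
  Submodule.span K {y | ∃ e : Module.End A V, (∀ v, e v ∈ W k) ∧ ∃ x : H, y = e • x}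

/-- The endomorphism `e` of the module `V`, as an operator on `H`. -/
noncomputable def act : Module.End A V →ₐ[K] Module.End K H :=
  Algebra.lsmul K K H

end

section

variable {K A V H : Type} [Field K] [Ring A] [Algebra K A] [AddCommGroup V] [Module K V] [Module A V]
  [IsScalarTower K A V] [AddCommGroup H] [Module K H] [Module (Module.End A V) H]
  [IsScalarTower K (Module.End A V) H]

/-- A cohomology theory of degree `a` for the family: a module `H` over the endomorphisms of the module `V` (the values of an
additive functor on the summands of the local system), with an operator `N₀` which commutes with them and a Frobenius `F`, such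
that `N F = q F N` for `N = N₀` and for `N = N₁`, the subspaces `H_k` which belong to `W k` are stable under `F`, and
`H_k / H_{k-1}` with `N₀`, `F` satisfies weight-monodromy in degree `a + k`. -/
structure Theory (q : ℕ) (W : ℤ → Submodule A V) (N₁ : Module.End A V) (a : ℤ) (N₀ F : Module.End K H) : Prop where
  comm : ∀ (e : Module.End A V) (x : H), N₀ (e • x) = e • N₀ x
  frob₀ : ∀ x, N₀ (F x) = (q : K) • F (N₀ x)
  frob₁ : ∀ x, N₁ • F x = (q : K) • F (N₁ • x)
  stable : ∀ k, ∀ x ∈ part K H W k, F x ∈ part K H W k
  wm : ∀ k, WM q (a + k) N₀ F (part K H W (k - 1)) (part K H W k)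

end

end Pool.Agent.AF37
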