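import Pool.Agent.LibAF37.Sys

/-! R9: the extreme degrees of the image of an idempotent. -/

namespace Pool.Agent.AF37

open Module Polynomial Pool.Agent.WM85 Pool.Agent.ND37 Pool.Agent.LibX1

variable {K H : Type} [Field K] [AddCommGroup H] [Module K H]

theorem extremes {N e : Module.End K H} {P : ℤ → Submodule K H} (h : IsMono N P) (he : e * e = e)
    (hc : N * e = e * N) (h0 : e ≠ 0) :
    ∃ t : ℕ, (∀ x, (N ^ (t + 1)) (e x) = 0) ∧ (∃ x, e x = x ∧ x ∈ P t ∧ x ∉ P ((t : ℤ) - 1)) ∧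
      ∃ y, e y = y ∧ y ∈ P (-t) ∧ y ∉ P (-(t : ℤ) - 1) := by
  classical
  have hnil : ∃ n : ℕ, (N ^ (n + 1)) * e = 0 := by
    obtain ⟨s, hs⟩ := h.bot
    obtain ⟨t, ht⟩ := h.top
    refine ⟨(t - s).toNat, ?_⟩
    ext x
    rw [Module.End.mul_apply, LinearMap.zero_apply]
    have h1 : e x ∈ P t := by
      rw [ht]
      exact Submodule.mem_top
    have h2 := h.shift_pow ((t - s).toNat + 1) t _ h1
    have h3 : P (t - 2 * (((t - s).toNat + 1 : ℕ) : ℤ)) ≤ P s := h.monotone (by push_cast; omega)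
    have h4 := h3 h2
    rwa [hs, Submodule.mem_bot] at h4
  obtain ⟨t, ht, hmin⟩ : ∃ t : ℕ, (N ^ (t + 1)) * e = 0 ∧ (N ^ t) * e ≠ 0 := by
    refine ⟨Nat.find hnil, Nat.find_spec hnil, fun h1 => ?_⟩
    rcases Nat.eq_zero_or_pos (Nat.find hnil) with h2 | h2
    · rw [h2, pow_zero, one_mul] at h1
      exact h0 h1
    · exact Nat.find_min hnil (m := Nat.find hnil - 1) (by omega) (by rwa [Nat.sub_add_cancel h2])
  have hz : ∃ z, (N ^ t) (e z) ≠ 0 := by
    by_contra hcon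
    push Not at hcon
    exact hmin (LinearMap.ext fun z => by rw [Module.End.mul_apply, hcon, LinearMap.zero_apply])
  obtain ⟨z, hz⟩ := hz
  have hee : ∀ w, e (e w) = e w := fun w => by rw [← Module.End.mul_apply, he]
  have hpc : ∀ (k : ℕ) (w : H), (N ^ k) (e w) = e ((N ^ k) w) := by
    intro k w
    have h1 : Commute (N ^ k) e := (show Commute N e from hc).pow_left k
    rw [← Module.End.mul_apply, h1.eq, Module.End.mul_apply]
  have ht0 : ∀ w, (N ^ (t + 1)) (e w) = 0 := fun w => by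
    rw [← Module.End.mul_apply, ht, LinearMap.zero_apply]
  have hx : e z ∈ P t := h.ker_le t (e z) (ht0 z)
  have hy : (N ^ t) (e z) ∈ P (-t) := by
    have h1 := h.shift_pow t t _ hx
    rwa [show (t : ℤ) - 2 * t = -t by ring] at h1
  have hy' : (N ^ t) (e z) ∉ P (-(t : ℤ) - 1) := by
    intro h1
    obtain ⟨w, -, hw⟩ := h.surj' (t + 1) ((N ^ t) (e z)) (by
      rwa [show (-((t + 1 : ℕ) : ℤ)) = -(t : ℤ) - 1 by push_cast; ring])
    apply hz
    have h2 : e ((N ^ t) (e z)) = (N ^ t) (e z) := by rw [← hpc, hee]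
    rw [← h2, ← hw, ← hpc, ht0]
  refine ⟨t, ht0, ⟨e z, hee z, hx, fun h1 => hy' ?_⟩, (N ^ t) (e z), by rw [← hpc, hee], hy, hy'⟩
  have h2 := h.shift_pow t _ _ h1
  rwa [show (t : ℤ) - 1 - 2 * t = -t - 1 by ring] at h2

end Pool.Agent.AF37
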