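import Pool.Agent.LibAF37.R5a
import Pool.Agent.LibAF37.R9

/-! R10 (MEDIUM). P = M0 π M. Suppose e ≠ 0; extremes (R9) for N₀, P, e gives t and x = e x ∈ P t, x ∉ P (t - 1), N₀ ^ (t+1) (e z) = 0 for all z. Put j = k + t. π k x = x (π k * e = e), so x ∈ W k and x ∈ Tot j
(mem_Tot_of with l = k, s = t; P monotone: IsMono.monotone of h.isMono; Sys.proj_P). (N₁ + N₀) ^ j x = sum over i ≤ j of binom * N₁ ^ i (N₀ ^ (j - i) x) (Commute.add_pow, h.comm). i < k: j - i ≥ t + 1 and N₀ ^ (j - i) x = 0.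
i ≥ k: N₁ ^ i (N₀ ^ (j-i) x) = N₀ ^ (j-i) (N₁ ^ (i-k) (N₁ ^ k (e x))) lies in W (-k - 1 - 2 (i - k)) (hyp he; h.shift; N₀ preserves W l by mem_iff and comm₀) and in P (t - 2 (j - i)) (IsMono.shift_pow, Sys.N₁_P), so in
Tot (k - 2 i - 1 + t - 2 (j - i)) = Tot (-j - 1) (mem_Tot_of). So (N₁ + N₀) ^ j x ∈ Tot (-j - 1), hI.inj j gives x ∈ Tot (j - 1), so π k x = x ∈ P (j - 1 - k) = P (t - 1): contradiction. -/

namespace Pool.Agent.AF37

open Module Polynomial Pool.Agent.WM85 Pool.Agent.ND37 Pool.Agent.LibX1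

variable {K H : Type} [Field K] [AddCommGroup H] [Module K H]

theorem Sys.no_ker [CharZero K] [FiniteDimensional K H] {q b : ℕ} {W : ℤ → Submodule K H}
    {π : ℤ → Module.End K H} {a : ℤ} {N₀ N₁ F : Module.End K H} {M : ℤ → ℤ → Submodule K H}
    (h : Sys q b W π a N₀ N₁ F M) (hI : IsMono (N₁ + N₀) (Tot π (M0 π M))) (k : ℕ) {e : Module.End K H}
    (he : e * e = e) (hc : N₀ * e = e * N₀) (h1 : π k * e = e) (h3 : ∀ x, (N₁ ^ k) (e x) ∈ W (-k - 1)) : e = 0 := by
  by_contra h0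
  have hM : IsMono N₀ (M0 π M) := h.isMono
  have hPm := hM.monotone
  have hPπ : ∀ k s, ∀ x ∈ M0 π M s, π k x ∈ M0 π M s := fun k s x hx => h.proj_P k s x hx
  obtain ⟨t, ht, ⟨x, hx, hxt, hxt'⟩, -⟩ := extremes hM he hc h0
  have hπx : π k x = x := by
    have h2 := LinearMap.congr_fun h1 x
    rw [Module.End.mul_apply, hx] at h2
    exact h2
  have hxW : x ∈ W k := by
    have h2 := h.split.proj_mem k x
    rwa [hπx] at h2
  have hxTot : x ∈ Tot π (M0 π M) (k + t) := mem_Tot_of h.split hPm hPπ hxW hxt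
  have hN₀W : ∀ l, ∀ z ∈ W l, N₀ z ∈ W l := by
    intro l z hz
    rw [h.split.mem_iff] at hz ⊢
    intro j hj
    have h2 := LinearMap.congr_fun (h.comm₀ j) z
    rw [Module.End.mul_apply, Module.End.mul_apply, hz j hj, map_zero] at h2
    exact h2.symm
  have hN₀Wp : ∀ n : ℕ, ∀ l, ∀ z ∈ W l, (N₀ ^ n) z ∈ W l := by
    intro n
    induction n with
    | zero => intro l z hz; simpa using hz
    | succ n ih =>
      intro l z hz
      rw [pow_succ', Module.End.mul_apply]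
      exact hN₀W l _ (ih l z hz)
  have hN₁Wp : ∀ n : ℕ, ∀ l, ∀ z ∈ W l, (N₁ ^ n) z ∈ W (l - 2 * n) := by
    intro n
    induction n with
    | zero => intro l z hz; simpa using hz
    | succ n ih =>
      intro l z hz
      have h2 := h.shift _ _ (ih l z hz)
      rw [pow_succ', Module.End.mul_apply]
      rwa [show l - 2 * (n : ℤ) - 2 = l - 2 * ((n + 1 : ℕ) : ℤ) by push_cast; ring] at h2
  have hN₁Pp : ∀ n : ℕ, ∀ s, ∀ z ∈ M0 π M s, (N₁ ^ n) z ∈ M0 π M s := by
    intro n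
    induction n with
    | zero => intro s z hz; simpa using hz
    | succ n ih =>
      intro s z hz
      rw [pow_succ', Module.End.mul_apply]
      exact h.N₁_P s _ (ih s z hz)
  have hcomm : Commute N₁ N₀ := h.comm.symm
  have key : ((N₁ + N₀) ^ (k + t)) x ∈ Tot π (M0 π M) (-((k + t : ℕ) : ℤ) - 1) := by
    rw [hcomm.add_pow, LinearMap.sum_apply]
    apply Submodule.sum_mem
    intro i hi
    rw [Finset.mem_range] at hi
    have h2 : (N₁ ^ i * N₀ ^ (k + t - i) * ((k + t).choose i : Module.End K H)) x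
        = ((k + t).choose i) • (N₁ ^ i) ((N₀ ^ (k + t - i)) x) := by
      rw [← nsmul_eq_mul', LinearMap.smul_apply, Module.End.mul_apply]
    rw [h2]
    apply Submodule.smul_of_tower_mem
    rcases lt_or_ge i k with hik | hik
    · have h4 : (N₀ ^ (k + t - i)) x = 0 := by
        rw [show k + t - i = (k - i - 1) + (t + 1) by omega, pow_add, Module.End.mul_apply]
        have h5 := ht x
        rw [hx] at h5
        rw [h5, map_zero]
      rw [h4, map_zero]
      exact Submodule.zero_mem _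
    · obtain ⟨m, rfl⟩ := Nat.exists_eq_add_of_le hik
      have hm : m ≤ t := by omega
      obtain ⟨n, rfl⟩ := Nat.exists_eq_add_of_le hm
      have e1 : k + (m + n) - (k + m) = n := by omega
      rw [e1]
      have hw : (N₁ ^ (k + m)) ((N₀ ^ n) x) ∈ W (-k - 1 - 2 * m) := by
        have h4 : (N₁ ^ (k + m)) ((N₀ ^ n) x) = (N₀ ^ n) ((N₁ ^ m) ((N₁ ^ k) (e x))) := by
          rw [hx, ← Module.End.mul_apply, ← Module.End.mul_apply, ← Module.End.mul_apply,
            (hcomm.pow_pow (k + m) n).eq, mul_assoc, ← pow_add, Nat.add_comm m k]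
        rw [h4]
        exact hN₀Wp n _ _ (hN₁Wp m _ _ (h3 x))
      have hp : (N₁ ^ (k + m)) ((N₀ ^ n) x) ∈ M0 π M (((m + n : ℕ) : ℤ) - 2 * n) :=
        hN₁Pp _ _ _ (hM.shift_pow n _ _ hxt)
      have h6 := mem_Tot_of h.split hPm hPπ hw hp
      rwa [show -(k : ℤ) - 1 - 2 * m + (((m + n : ℕ) : ℤ) - 2 * n)
        = -((k + (m + n) : ℕ) : ℤ) - 1 by push_cast; ring] at h6
  have h7 := hI.inj (k + t) x (by push_cast; exact hxTot) key
  rw [mem_Tot] at h7
  have h8 := h7 k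
  rw [hπx] at h8
  apply hxt'
  rwa [show (((k + t : ℕ) : ℤ) - 1 - k) = (t : ℤ) - 1 by push_cast; ring] at h8

end Pool.Agent.AF37
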