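import Pool.Agent.LibAF37.R5a
import Pool.Agent.LibAF37.R9

/-! R11 (MEDIUM). P = M0 π M. Suppose e ≠ 0; extremes (R9) for N₀, P, e: t and y = e y ∈ P (-t), y ∉ P (-t - 1), N₀ ^ (t+1) (e z) = 0 for all z. j = k + t. π (-k) y = y, so y ∈ W (-k), y ∈ Tot (-j) (mem_Tot_of).
hI.surj j: x ∈ Tot j with y - (N₁ + N₀) ^ j x ∈ Tot (-j - 1). (A) e maps Tot s into Tot s (e = π (-k) e π (-k); x ∈ Tot s: π (-k) x ∈ P (s + k), e x ∈ P (s + k) (idem_stable, R3), e x ∈ W (-k): mem_Tot_of).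
(B) e ((N₁ + N₀) ^ j x) ∈ Tot (-j - 1): Commute.add_pow; terms i < k: e N₁ ^ i N₀ ^ (j-i) x = N₀ ^ (j-i) (e (N₁ ^ i x)) = 0 (e commutes with N₀; j - i ≥ t + 1). Terms i ≥ k: z = N₁ ^ (i-k) (N₀ ^ (j-i) x) ∈ Tot (2 k - j)
(Sys.N₀_Tot, Sys.N₁_Tot iterated: j - 2 (j - k)), and e (N₁ ^ k z) = sum over l of e (N₁ ^ k (π l z)): l < k: 0 (N₁ ^ k maps W l to W (l - 2k), π (-k) kills it, e = e π (-k)); l = k: 0 (h3); l ≥ k + 1: π l z ∈ P (2k - j - l),
so e (N₁ ^ k (π l z)) ∈ P (2k - j - l) (Sys.N₁_P, idem_stable) and in W (-k), so in Tot (k - j - l) ≤ Tot (-j - 1). So y = e y ∈ Tot (-j - 1), π (-k) y = y ∈ P (-j - 1 + k) = P (-t - 1): contradiction. -/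

namespace Pool.Agent.AF37

open Module Polynomial Pool.Agent.WM85 Pool.Agent.ND37 Pool.Agent.LibX1

variable {K H : Type} [Field K] [AddCommGroup H] [Module K H]

private theorem R11_pow {N : Module.End K H} {T : ℤ → Submodule K H}
    (h : ∀ j x, x ∈ T j → N x ∈ T (j - 2)) (n : ℕ) : ∀ j x, x ∈ T j → (N ^ n) x ∈ T (j - 2 * n) := by
  induction n with
  | zero =>
    intro j x hx
    simpa using hx
  | succ n ih =>
    intro j x hx
    rw [pow_succ', Module.End.mul_apply]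
    have h1 := h _ _ (ih j x hx)
    have h2 : j - 2 * (n : ℤ) - 2 = j - 2 * ((n + 1 : ℕ) : ℤ) := by
      push_cast
      ring
    rwa [h2] at h1

private theorem R11_stab {N : Module.End K H} {T : Submodule K H} (h : ∀ x, x ∈ T → N x ∈ T) (n : ℕ) :
    ∀ x, x ∈ T → (N ^ n) x ∈ T := by
  induction n with
  | zero =>
    intro x hx
    simpa using hx
  | succ n ih =>
    intro x hx
    rw [pow_succ', Module.End.mul_apply]
    exact h _ (ih x hx)

theorem Sys.no_coker [CharZero K] [FiniteDimensional K H] {q b : ℕ} {W : ℤ → Submodule K H}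
    {π : ℤ → Module.End K H} {a : ℤ} {N₀ N₁ F : Module.End K H} {M : ℤ → ℤ → Submodule K H}
    (h : Sys q b W π a N₀ N₁ F M) (hI : IsMono (N₁ + N₀) (Tot π (M0 π M))) (k : ℕ) {e : Module.End K H}
    (he : e * e = e) (hc : N₀ * e = e * N₀) (h1 : π (-k) * e = e) (h2 : e * π (-k) = e)
    (h3 : e * N₁ ^ k * π k = 0) : e = 0 := by
  by_contra h0
  obtain ⟨t, ht, -, y, hy1, hy2, hy3⟩ := extremes h.isMono he hc h0
  have hP : Monotone (M0 π M) := h.isMono.monotone
  have hPπ : ∀ k s, ∀ x ∈ M0 π M s, π k x ∈ M0 π M s := fun k s x hx => h.proj_P k s x hx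
  have e1 : ∀ x, π (-k) (e x) = e x := fun x => by rw [← Module.End.mul_apply, h1]
  have e2 : ∀ x, e (π (-k) x) = e x := fun x => by rw [← Module.End.mul_apply, h2]
  have e3 : ∀ x, e ((N₁ ^ k) (π k x)) = 0 := fun x => by
    have c0 : (e * N₁ ^ k * π k) x = e ((N₁ ^ k) (π k x)) := rfl
    rw [← c0, h3, LinearMap.zero_apply]
  have eW : ∀ x, e x ∈ W (-k) := fun x => by
    rw [← e1]
    exact h.split.proj_mem _ _
  have eP : ∀ s x, x ∈ M0 π M s → e x ∈ M0 π M s := fun s x hx => idem_stable h.isMono he hc s x hx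
  have eT : ∀ s x, x ∈ M0 π M s → e x ∈ Tot π (M0 π M) (-k + s) := fun s x hx =>
    mem_Tot_of h.split hP hPπ (eW x) (eP s x hx)
  have hA : ∀ s x, x ∈ Tot π (M0 π M) s → e x ∈ Tot π (M0 π M) s := by
    intro s x hx
    have a1 := mem_Tot.1 hx (-k)
    have a2 := eT _ _ a1
    rw [e2] at a2
    have a3 : -(k : ℤ) + (s - -(k : ℤ)) = s := by ring
    rwa [a3] at a2
  have hyπ : π (-k) y = y := by
    rw [← hy1, e1]
  have hyT : y ∈ Tot π (M0 π M) (-((k + t : ℕ) : ℤ)) := by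
    have a1 := eT _ _ hy2
    rw [hy1] at a1
    have a2 : -(k : ℤ) + -(t : ℤ) = -((k + t : ℕ) : ℤ) := by
      push_cast
      ring
    rwa [a2] at a1
  obtain ⟨x, hx, hxy⟩ := hI.surj (k + t) y hyT
  have hcomm : Commute N₁ N₀ := h.comm.symm
  have hce : Commute N₀ e := hc
  have hB : e (((N₁ + N₀) ^ (k + t)) x) ∈ Tot π (M0 π M) (-((k + t : ℕ) : ℤ) - 1) := by
    rw [hcomm.add_pow, LinearMap.sum_apply, map_sum]
    refine Submodule.sum_mem _ fun i hi => ?_
    have hi' : i ≤ k + t := Nat.lt_succ_iff.1 (Finset.mem_range.1 hi)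
    have b1 : (N₁ ^ i * N₀ ^ (k + t - i) * (((k + t).choose i : ℕ) : Module.End K H)) x =
        ((k + t).choose i : K) • ((N₁ ^ i) ((N₀ ^ (k + t - i)) x)) := by
      have : (((k + t).choose i : ℕ) : Module.End K H) = ((k + t).choose i : K) • (1 : Module.End K H) := by
        rw [← nsmul_one, Nat.cast_smul_eq_nsmul]
      rw [this, mul_smul_comm, mul_one, LinearMap.smul_apply, Module.End.mul_apply]
    rw [b1, map_smul]
    refine Submodule.smul_mem _ _ ?_
    rcases lt_or_ge i k with hik | hik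
    · have c1 : (N₁ ^ i) ((N₀ ^ (k + t - i)) x) = (N₀ ^ (k + t - i)) ((N₁ ^ i) x) := by
        rw [← Module.End.mul_apply, ← Module.End.mul_apply, (hcomm.pow_pow i (k + t - i)).eq]
      have c2 : e ((N₀ ^ (k + t - i)) ((N₁ ^ i) x)) = (N₀ ^ (k + t - i)) (e ((N₁ ^ i) x)) := by
        have c0 : (e * N₀ ^ (k + t - i)) ((N₁ ^ i) x) = e ((N₀ ^ (k + t - i)) ((N₁ ^ i) x)) := rfl
        rw [← c0, ← (hce.pow_left (k + t - i)).eq, Module.End.mul_apply]
      obtain ⟨r, hr⟩ : ∃ r, k + t - i = r + (t + 1) := ⟨k - i - 1, by omega⟩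
      rw [c1, c2, hr, pow_add, Module.End.mul_apply, ht, map_zero]
      exact Submodule.zero_mem _
    · obtain ⟨i', rfl⟩ : ∃ i', i = k + i' := ⟨i - k, by omega⟩
      obtain ⟨r, hr⟩ : ∃ r, k + t - (k + i') = r := ⟨_, rfl⟩
      have hr' : (r : ℤ) = t - i' := by omega
      rw [hr, pow_add, Module.End.mul_apply]
      set z := (N₁ ^ i') ((N₀ ^ r) x) with hz
      have hzT : z ∈ Tot π (M0 π M) ((k : ℤ) - t) := by
        have c1 := R11_pow (fun j x hx => h.N₀_Tot j x hx) r _ x hx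
        have c2 := R11_pow (fun j x hx => h.N₁_Tot j x hx) i' _ _ c1
        have c3 : (((k + t : ℕ) : ℤ) - 2 * (r : ℤ) - 2 * (i' : ℤ)) = (k : ℤ) - t := by
          rw [hr']
          push_cast
          ring
        rwa [c3] at c2
      rw [← h.split.toGrading.sum_apply z, map_sum, map_sum]
      refine Submodule.sum_mem _ fun l _ => ?_
      rcases lt_trichotomy l (k : ℤ) with hl | hl | hl
      · have c1 : (N₁ ^ k) (π l z) ∈ W (l - 2 * k) :=
          R11_pow (T := W) (fun j x hx => h.shift j x hx) k l _ (h.split.proj_mem l z)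
        have c2 : π (-k) ((N₁ ^ k) (π l z)) = 0 := (h.split.mem_iff _ _).1 c1 _ (by omega)
        rw [← e2, c2, map_zero]
        exact Submodule.zero_mem _
      · subst hl
        rw [e3]
        exact Submodule.zero_mem _
      · have c1 : π l z ∈ M0 π M ((k : ℤ) - t - l) := mem_Tot.1 hzT l
        have c2 : (N₁ ^ k) (π l z) ∈ M0 π M ((k : ℤ) - t - l) :=
          R11_stab (fun x hx => h.N₁_P _ x hx) k _ c1
        have c3 := eT _ _ c2
        refine Tot_mono hP ?_ c3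
        push_cast
        omega
  have hyT2 : y ∈ Tot π (M0 π M) (-((k + t : ℕ) : ℤ) - 1) := by
    have a1 : y = e (y - ((N₁ + N₀) ^ (k + t)) x) + e (((N₁ + N₀) ^ (k + t)) x) := by
      rw [← map_add, sub_add_cancel, hy1]
    rw [a1]
    exact Submodule.add_mem _ (hA _ _ hxy) hB
  have a1 := mem_Tot.1 hyT2 (-k)
  rw [hyπ] at a1
  apply hy3
  have a2 : -((k + t : ℕ) : ℤ) - 1 - -(k : ℤ) = -(t : ℤ) - 1 := by
    push_cast
    ring
  rwa [a2] at a1

end Pool.Agent.AF37
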