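import Pool.Agent.LibAF37.SplitA

/-! S1 (MEDIUM): the filtration of a semisimple module splits. Plan: W is monotone (monotone_int_of_le_succ), there is b with W (-b - 1) = ⊥, W b = ⊤. For every k there is t k : End A V with t k v ∈ W k for all v and
t k v = v for v ∈ W k (IsSemisimpleModule: exists_isCompl (W k), Submodule.projectionOnto or IsCompl.projection). For n : ℕ let r n = t (b - n) * t (b - n + 1) * ... * t b (recursion r 0 = t b, r (n+1) = t (b - n - 1) * r n);
so with q k = r (b - k).toNat for k ≤ b, q k = 1 for k > b: q k v ∈ W k, q k v = v for v ∈ W k (induction), and q k * q l = q (min k l): for k ≥ l clear; for k ≤ l: q k = (t k ... t (l-1)) * q l, so q k * q l = q k.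
p k = q k - q (k - 1): idempotent, orthogonal (q k q l = q (min k l)), p k = 0 for k > b (q b = 1 since W b = ⊤) and for k < -b (q = 0 since W = ⊥), the sum over Icc (-b) b telescopes to q b - q (-b - 1) = 1.
mem_iff: v ∈ W k: q j v = v for j ≥ k, so p j v = 0 for j > k. Conversely p j v = 0 for all j > k gives q k v = q b v = v, so v ∈ W k. -/

namespace Pool.Agent.AF37

open Module Polynomial Pool.Agent.WM85 Pool.Agent.ND37 Pool.Agent.LibX1

private def S1_R {A V : Type} [Ring A] [AddCommGroup V] [Module A V] (t : ℤ → Module.End A V) (b : ℤ) :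
    ℕ → Module.End A V
  | 0 => t b
  | n + 1 => t (b - ((n + 1 : ℕ) : ℤ)) * S1_R t b n

private theorem S1_sum {M : Type} [AddCommGroup M] (f : ℤ → M) (a : ℤ) (n : ℕ) :
    ∑ k ∈ Finset.Icc a (a + n), (f k - f (k - 1)) = f (a + n) - f (a - 1) := by
  induction n with
  | zero => simp
  | succ n ih =>
    have h1 : Finset.Icc a (a + ((n + 1 : ℕ) : ℤ)) = insert (a + ((n + 1 : ℕ) : ℤ)) (Finset.Icc a (a + n)) := by
      ext x
      simp only [Finset.mem_Icc, Finset.mem_insert]
      push_cast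
      omega
    have h2 : a + ((n + 1 : ℕ) : ℤ) ∉ Finset.Icc a (a + n) := by
      simp only [Finset.mem_Icc]
      push_cast
      omega
    rw [h1, Finset.sum_insert h2, ih]
    have h3 : a + ((n + 1 : ℕ) : ℤ) - 1 = a + n := by
      push_cast
      ring
    rw [h3]
    abel

theorem exists_splitA {A V : Type} [Ring A] [AddCommGroup V] [Module A V] [IsSemisimpleModule A V]
    {W : ℤ → Submodule A V} {N₁ : Module.End A V} (h : Family W N₁) :
    ∃ (b : ℕ) (p : ℤ → Module.End A V), SplitA b W p := by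
  have hmono : Monotone W := monotone_int_of_le_succ fun k => by
    have h1 := h.mono (k + 1)
    rwa [add_sub_cancel_right] at h1
  obtain ⟨k0, hk0⟩ := h.bot
  obtain ⟨k1, hk1⟩ := h.top
  obtain ⟨b, hb0, hb1⟩ : ∃ b : ℕ, -(b : ℤ) - 1 ≤ k0 ∧ k1 ≤ (b : ℤ) :=
    ⟨max k0.natAbs k1.natAbs, by omega, by omega⟩
  have hbot : W (-(b : ℤ) - 1) = ⊥ := le_bot_iff.1 (hk0 ▸ hmono hb0)
  have htop : ∀ k : ℤ, (b : ℤ) ≤ k → W k = ⊤ := fun k hk => top_le_iff.1 (hk1 ▸ hmono (hb1.trans hk))
  have ht : ∀ k : ℤ, ∃ t : Module.End A V, (∀ v, t v ∈ W k) ∧ ∀ v ∈ W k, t v = v := by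
    intro k
    obtain ⟨q, hq⟩ := exists_isCompl (W k)
    refine ⟨(W k).subtype ∘ₗ Submodule.projectionOnto (W k) q hq, fun v => ?_, fun v hv => ?_⟩
    · exact (Submodule.projectionOnto (W k) q hq v).2
    · have h1 := Submodule.projectionOnto_apply_left hq ⟨v, hv⟩
      show ((Submodule.projectionOnto (W k) q hq v : W k) : V) = v
      rw [h1]
  choose t ht1 ht2 using ht
  have hR1 : ∀ (n : ℕ) v, S1_R t b n v ∈ W (b - n) := by
    intro n v
    cases n with
    | zero =>
      show t b v ∈ W ((b : ℤ) - ((0 : ℕ) : ℤ))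
      have h1 : (b : ℤ) - ((0 : ℕ) : ℤ) = b := by simp
      rw [h1]
      exact ht1 _ _
    | succ n => exact ht1 _ _
  have hR2 : ∀ (n : ℕ), ∀ v ∈ W (b - n), S1_R t b n v = v := by
    intro n
    induction n with
    | zero =>
      intro v hv
      have h1 : (b : ℤ) - ((0 : ℕ) : ℤ) = b := by simp
      rw [h1] at hv
      exact ht2 _ _ hv
    | succ n ih =>
      intro v hv
      show t (b - ((n + 1 : ℕ) : ℤ)) (S1_R t b n v) = v
      rw [ih v (hmono (by push_cast; omega) hv)]
      exact ht2 _ _ hv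
  have hR3 : ∀ m n : ℕ, m ≤ n → S1_R t b m * S1_R t b n = S1_R t b n := by
    intro m n hmn
    ext v
    show S1_R t b m (S1_R t b n v) = S1_R t b n v
    exact hR2 m _ (hmono (by omega) (hR1 n v))
  have hR4 : ∀ m n : ℕ, m ≤ n → S1_R t b n * S1_R t b m = S1_R t b n := by
    intro m n hmn
    induction n, hmn using Nat.le_induction with
    | base => exact hR3 m m le_rfl
    | succ n hn ih =>
      show t (b - ((n + 1 : ℕ) : ℤ)) * S1_R t b n * S1_R t b m = t (b - ((n + 1 : ℕ) : ℤ)) * S1_R t b n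
      rw [mul_assoc, ih]
  obtain ⟨q, hq⟩ : ∃ q : ℤ → Module.End A V, ∀ k, q k = S1_R t b ((b : ℤ) - k).toNat := ⟨_, fun _ => rfl⟩
  have hq1 : ∀ k v, q k v ∈ W k := by
    intro k v
    rw [hq]
    by_cases hk : k ≤ b
    · have h1 := hR1 ((b : ℤ) - k).toNat v
      have h2 : (b : ℤ) - (((b : ℤ) - k).toNat : ℤ) = k := by omega
      rwa [h2] at h1
    · rw [htop k (by omega)]
      exact Submodule.mem_top
  have hq2 : ∀ k, ∀ v ∈ W k, q k v = v := by
    intro k v hv
    rw [hq]
    refine hR2 _ v ?_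
    by_cases hk : k ≤ b
    · have h2 : (b : ℤ) - (((b : ℤ) - k).toNat : ℤ) = k := by omega
      rwa [h2]
    · rw [htop _ (by omega)]
      exact Submodule.mem_top
  have hq3 : ∀ k l, k ≤ l → q k * q l = q k := by
    intro k l hkl
    rw [hq, hq]
    exact hR4 _ _ (by omega)
  have hq4 : ∀ k l, k ≤ l → q l * q k = q k := by
    intro k l hkl
    rw [hq, hq]
    exact hR3 _ _ (by omega)
  have hqb : ∀ k : ℤ, (b : ℤ) ≤ k → q k = 1 := by
    intro k hk
    ext v
    exact hq2 k v (by rw [htop k hk]; exact Submodule.mem_top)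
  have hq0 : q (-(b : ℤ) - 1) = 0 := by
    ext v
    have h1 := hq1 (-(b : ℤ) - 1) v
    rw [hbot, Submodule.mem_bot] at h1
    exact h1
  refine ⟨b, fun k => q k - q (k - 1), ?_, ?_, ?_, ?_⟩
  · intro k
    show (q k - q (k - 1)) * (q k - q (k - 1)) = q k - q (k - 1)
    rw [sub_mul, mul_sub, mul_sub, hq3 k k le_rfl, hq4 (k - 1) k (by omega), hq3 (k - 1) k (by omega),
      hq3 (k - 1) (k - 1) le_rfl]
    abel
  · intro k l hkl
    show (q k - q (k - 1)) * (q l - q (l - 1)) = 0
    rw [sub_mul, mul_sub, mul_sub]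
    rcases lt_or_gt_of_ne hkl with h1 | h1
    · rw [hq3 k l (by omega), hq3 k (l - 1) (by omega), hq3 (k - 1) l (by omega), hq3 (k - 1) (l - 1) (by omega)]
      abel
    · rw [hq4 l k (by omega), hq4 (l - 1) k (by omega), hq4 l (k - 1) (by omega), hq4 (l - 1) (k - 1) (by omega)]
      abel
  · have h1 := S1_sum q (-(b : ℤ)) (2 * b)
    have h2 : -(b : ℤ) + ((2 * b : ℕ) : ℤ) = b := by
      push_cast
      ring
    rw [h2] at h1
    show ∑ k ∈ Finset.Icc (-(b : ℤ)) b, (q k - q (k - 1)) = 1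
    rw [h1, hqb b le_rfl, hq0, sub_zero]
  · intro k v
    constructor
    · intro hv j hj
      show q j v - q (j - 1) v = 0
      rw [hq2 j v (hmono (by omega) hv), hq2 (j - 1) v (hmono (by omega) hv), sub_self]
    · intro hv
      have h1 : ∀ n : ℕ, q (k + n) v = q k v := by
        intro n
        induction n with
        | zero => simp
        | succ n ih =>
          have h2 : q (k + ((n + 1 : ℕ) : ℤ)) v - q (k + ((n + 1 : ℕ) : ℤ) - 1) v = 0 := hv _ (by push_cast; omega)
          have h3 : k + ((n + 1 : ℕ) : ℤ) - 1 = k + n := by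
            push_cast
            ring
          rw [h3, ih] at h2
          exact sub_eq_zero.1 h2
      have h4 := h1 ((b : ℤ) - k).toNat
      rw [hqb _ (by omega)] at h4
      have h5 : v = q k v := h4
      rw [h5]
      exact hq1 k v

end Pool.Agent.AF37
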