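import Pool.Agent.LibAF37.SplitA

/-! S4 (MEDIUM): u = p (-k) * N₁ ^ k * p k is bijective from range (p k) to range (p (-k)). Plan. (1) Let P = ker u ⊓ range (p k); V semisimple: Q with IsCompl P Q; better: range (p k) is semisimple; take the projection e0 of V onto
P along a complement C of P, and e = e0 * p k: values in P ⊆ range (p k), so p k * e = e, e * p k = e, and e v = v for v ∈ P (p k v = v), so e * e = e. For v: e v ∈ P: p (-k) (N₁ ^ k (p k (e v))) = 0 and p k (e v) = e v,
N₁ ^ k (e v) ∈ W (k - 2k) = W (-k) (e v ∈ W k), so N₁ ^ k (e v) ∈ W (-k - 1) (mem_iff: p j of it is 0 for j > -k and for j = -k). h1: e = 0, so P = ⊥. (2) Let R = range u, C a complement of R in V (exists_isCompl), e0 the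
projection onto C along R, e = p (-k) * e0 * p (-k). R ⊆ range (p (-k)); hence for v ∈ range (p (-k)): e0 v = v - r, r ∈ R, so p (-k) (e0 v) = e0 v (p (-k) v = v, p (-k) r = r), so e * e = e, p (-k) e = e, e p (-k) = e,
e u = 0, that is e * N₁ ^ k * p k = 0 (e p (-k) = e). h2: e = 0. So e0 v = 0, v ∈ R for v ∈ range (p (-k)). (3) g v = the unique w ∈ range (p k) with u w = p (-k) v: LinearEquiv.ofBijective of the restriction of u to
range (p k) → range (p (-k)) (codRestrict, domRestrict), g = subtype ∘ symm ∘ codRestrict (p (-k)). -/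

namespace Pool.Agent.AF37

open Module Polynomial Pool.Agent.WM85 Pool.Agent.ND37 Pool.Agent.LibX1

theorem exists_inverse {A V : Type} [Ring A] [AddCommGroup V] [Module A V] [IsSemisimpleModule A V]
    {W : ℤ → Submodule A V} {N₁ : Module.End A V} (h : Family W N₁) {b : ℕ} {p : ℤ → Module.End A V}
    (hp : SplitA b W p) (k : ℕ)
    (h1 : ∀ e : Module.End A V, e * e = e → p k * e = e → (∀ v, (N₁ ^ k) (e v) ∈ W (-k - 1)) → e = 0)
    (h2 : ∀ e : Module.End A V, e * e = e → p (-k) * e = e → e * p (-k) = e → e * N₁ ^ k * p k = 0 → e = 0) :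
    ∃ g : Module.End A V, g * (p (-k) * N₁ ^ k * p k) = p k ∧ p (-k) * N₁ ^ k * p k * g = p (-k) := by
  set u : Module.End A V := p (-k) * N₁ ^ k * p k with hu
  have hpk : ∀ (j : ℤ) (v : V), p j (p j v) = p j v := fun j v => LinearMap.congr_fun (hp.idem j) v
  have horth : ∀ (i j : ℤ), i ≠ j → ∀ v : V, p i (p j v) = 0 :=
    fun i j hij v => LinearMap.congr_fun (hp.orth i j hij) v
  have hua : ∀ v, u v = p (-k) ((N₁ ^ k) (p k v)) := fun v => rfl
  have hup : ∀ v, u (p k v) = u v := fun v => by rw [hua, hua, hpk]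
  have hpu : ∀ v, p (-k) (u v) = u v := fun v => by rw [hua, hpk]
  have hshift : ∀ (i : ℕ) (j : ℤ) (v : V), v ∈ W j → (N₁ ^ i) v ∈ W (j - 2 * i) := by
    intro i
    induction i with
    | zero =>
      intro j v hv
      rw [pow_zero, Nat.cast_zero, mul_zero, sub_zero]
      exact hv
    | succ i ih =>
      intro j v hv
      rw [pow_succ']
      have h3 := h.shift _ _ (ih j v hv)
      have h4 : j - 2 * (i : ℤ) - 2 = j - 2 * ((i + 1 : ℕ) : ℤ) := by push_cast; ring
      rw [h4] at h3
      exact h3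
  -- (1) injectivity
  have hinj : ∀ v, p k v = v → u v = 0 → v = 0 := by
    obtain ⟨C, hC⟩ := exists_isCompl (LinearMap.ker u ⊓ LinearMap.range (p k))
    set P : Submodule A V := LinearMap.ker u ⊓ LinearMap.range (p k) with hP
    set e₀ : Module.End A V := P.projection C hC with he₀
    have hmem : ∀ x, e₀ x ∈ P := fun x => Submodule.projection_apply_mem hC x
    have hPk : ∀ x ∈ P, p k x = x := by
      intro x hx
      obtain ⟨y, rfl⟩ := hx.2
      exact hpk _ _
    have hPe : ∀ x ∈ P, e₀ x = x := fun x hx => Submodule.projection_apply_of_mem_left hC hx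
    have he : e₀ * p k = 0 := by
      apply h1
      · ext v
        change e₀ (p k (e₀ (p k v))) = e₀ (p k v)
        rw [hPk _ (hmem _), hPe _ (hmem _)]
      · ext v
        change p k (e₀ (p k v)) = e₀ (p k v)
        exact hPk _ (hmem _)
      · intro v
        change (N₁ ^ k) (e₀ (p k v)) ∈ W (-k - 1)
        set z := e₀ (p k v) with hz
        have hzP : z ∈ P := hmem _
        have hzk : z ∈ W (k : ℤ) := by
          rw [hp.mem_iff]
          intro j hj
          rw [← hPk z hzP]
          exact horth j k hj.ne' z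
        have hN := hshift k k z hzk
        have hkk : (k : ℤ) - 2 * k = -k := by ring
        rw [hkk, hp.mem_iff] at hN
        rw [hp.mem_iff]
        intro j hj
        rcases eq_or_lt_of_le (show (-k : ℤ) ≤ j by omega) with h5 | h5
        · have h6 : u z = 0 := LinearMap.mem_ker.1 hzP.1
          rw [hua, hPk z hzP] at h6
          rw [← h5]
          exact h6
        · exact hN j h5
    intro v hv huv
    have hvP : v ∈ P := ⟨LinearMap.mem_ker.2 huv, ⟨v, hv⟩⟩
    have h3 : (e₀ * p k) v = 0 := by rw [he, LinearMap.zero_apply]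
    have h4 : e₀ (p k v) = 0 := h3
    rwa [hv, hPe v hvP] at h4
  -- (2) surjectivity
  have hsur : ∀ v, p (-k) v ∈ LinearMap.range u := by
    obtain ⟨C, hC⟩ := exists_isCompl (LinearMap.range u)
    set e₀ : Module.End A V := C.projection (LinearMap.range u) hC.symm with he₀
    have hmem : ∀ x, e₀ x ∈ C := fun x => Submodule.projection_apply_mem hC.symm x
    have hCe : ∀ x ∈ C, e₀ x = x := fun x hx => Submodule.projection_apply_of_mem_left hC.symm hx
    have hRe : ∀ x ∈ LinearMap.range u, e₀ x = 0 :=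
      fun x hx => (Submodule.projection_apply_eq_zero_iff hC.symm).2 hx
    have hfix : ∀ v, p (-k) v = v → p (-k) (e₀ v) = e₀ v := by
      intro v hv
      have h3 : e₀ v + (LinearMap.range u).projection C hC v = v :=
        Submodule.projection_add_projection_eq_self hC.symm v
      obtain ⟨y, hy⟩ : (LinearMap.range u).projection C hC v ∈ LinearMap.range u :=
        Submodule.projection_apply_mem hC v
      have h4 : e₀ v = v - u y := by rw [hy, eq_sub_iff_add_eq, h3]
      rw [h4, map_sub, hv, hpu]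
    have he : p (-k) * e₀ * p (-k) = 0 := by
      apply h2
      · ext v
        change p (-k) (e₀ (p (-k) (p (-k) (e₀ (p (-k) v))))) = p (-k) (e₀ (p (-k) v))
        have h5 : p (-k) (e₀ (p (-k) v)) = e₀ (p (-k) v) := hfix _ (hpk _ _)
        rw [h5, h5, hCe _ (hmem _), h5]
      · ext v
        change p (-k) (p (-k) (e₀ (p (-k) v))) = p (-k) (e₀ (p (-k) v))
        rw [hpk]
      · ext v
        change p (-k) (e₀ (p (-k) (p (-k) v))) = p (-k) (e₀ (p (-k) v))
        rw [hpk]
      · ext v
        change p (-k) (e₀ (p (-k) ((N₁ ^ k) (p k v)))) = 0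
        rw [← hua, hRe _ ⟨v, rfl⟩, map_zero]
    intro v
    have h3 : (p (-k) * e₀ * p (-k)) v = 0 := by rw [he, LinearMap.zero_apply]
    have h4 : p (-k) (e₀ (p (-k) v)) = 0 := h3
    rw [hfix _ (hpk _ _)] at h4
    exact (Submodule.projection_apply_eq_zero_iff hC.symm).1 h4
  -- (3) the inverse
  set L : LinearMap.range (p k) →ₗ[A] V := u.domRestrict (LinearMap.range (p k)) with hLdef
  have hLa : ∀ x, L x = u x.1 := fun x => rfl
  have hLi : Function.Injective L := by
    rw [← LinearMap.ker_eq_bot, LinearMap.ker_eq_bot']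
    intro x hx
    apply Subtype.ext
    obtain ⟨y, hy⟩ := x.2
    refine hinj x.1 ?_ hx
    rw [← hy, hpk]
  have hLr : ∀ v, p (-k) v ∈ LinearMap.range L := by
    intro v
    obtain ⟨y, hy⟩ := hsur v
    refine ⟨⟨p k y, ⟨y, rfl⟩⟩, ?_⟩
    rw [hLa, ← hy]
    exact hup y
  refine ⟨(LinearMap.range (p k)).subtype ∘ₗ ((LinearEquiv.ofInjective L hLi).symm : _ →ₗ[A] _) ∘ₗ
    (p (-k)).codRestrict (LinearMap.range L) hLr, ?_, ?_⟩
  · ext v
    change (((LinearEquiv.ofInjective L hLi).symm ⟨p (-k) (u v), hLr (u v)⟩ : LinearMap.range (p k)) : V) = p k v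
    have h3 : (⟨p (-k) (u v), hLr (u v)⟩ : LinearMap.range L) =
        LinearEquiv.ofInjective L hLi ⟨p k v, ⟨v, rfl⟩⟩ := by
      apply Subtype.ext
      rw [LinearEquiv.ofInjective_apply]
      change p (-k) (u v) = u (p k v)
      rw [hpu, hup]
    rw [h3, LinearEquiv.symm_apply_apply]
  · ext v
    change u (((LinearEquiv.ofInjective L hLi).symm ⟨p (-k) v, hLr v⟩ : LinearMap.range (p k)) : V) = p (-k) v
    rw [← hLa, ← LinearEquiv.ofInjective_apply (h := hLi), LinearEquiv.apply_symm_apply]

end Pool.Agent.AF37
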