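import Pool.Agent.LibAF37.S2

/-! S5 (MEDIUM, easy): if the maps p (-k) N₁ ^ k p k are invertible then part K H W is the monodromy filtration of act N₁ on H. Write W' = part K H W, π k = act K H (p k), hs = hp.split (Split, with proj_mem, sub_mem, zero_of_mem
of LibND37/G5), n = act K H N₁; n ^ k = act K H (N₁ ^ k) (map_pow). mono: part W (k - 1) ≤ part W k (span_mono, hV.mono). bot: W' (-b - 1) = ⊥ (mem_iff, Grading.zero, sum_apply); top: W' b = ⊤. shift: span_induction or
mem_iff: for y = e • x, N₁ • y = (N₁ * e) • x. inj: x ∈ W' k, n ^ k x ∈ W' (-k - 1): π (-k) (n ^ k x) = 0; x - π k x ∈ W' (k - 1), n ^ k maps it into W' (-k - 1), so π (-k) (n ^ k (π k x)) = 0, that is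
(p (-k) * N₁ ^ k * p k) • x = 0; apply g: p k • x = 0, x ∈ W' (k - 1). surj: y ∈ W' (-k): x = g • y; replace by π k x: x = p k • (g • y) ∈ W' k, π (-k) (n ^ k x) = (p (-k) * N₁ ^ k * p k * g) • y = p (-k) • y
(p k * p k = p k), n ^ k x ∈ W' (-k), so y - n ^ k x ∈ W' (-k) and π (-k) of it is 0, so it lies in W' (-k - 1) (mem_iff). -/

namespace Pool.Agent.AF37

open Module Polynomial Pool.Agent.WM85 Pool.Agent.ND37 Pool.Agent.LibX1

variable {K A V H : Type} [Field K] [Ring A] [Algebra K A] [AddCommGroup V] [Module K V] [Module A V]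
  [IsScalarTower K A V] [AddCommGroup H] [Module K H] [Module (Module.End A V) H]
  [IsScalarTower K (Module.End A V) H]

theorem isMono_part {W : ℤ → Submodule A V} {N₁ : Module.End A V} (hV : Family W N₁) {b : ℕ}
    {p : ℤ → Module.End A V} (hp : SplitA b W p)
    (hg : ∀ k : ℕ, ∃ g : Module.End A V, g * (p (-k) * N₁ ^ k * p k) = p k ∧ p (-k) * N₁ ^ k * p k * g = p (-k)) :
    IsMono (act K H N₁) (part K H W) := by
  have hs := hp.split (K := K) (H := H)
  have hpow : ∀ (j : ℕ) (x : H), ((act K H N₁) ^ j) x = (N₁ ^ j) • x := by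
    intro j x
    rw [← map_pow, act_apply]
  have hshift : ∀ s, ∀ x ∈ part K H W s, act K H N₁ x ∈ part K H W (s - 2) := by
    intro s x hx
    have hle : part K H W s ≤ (part K H W (s - 2)).comap (act K H N₁) := by
      refine Submodule.span_le.2 ?_
      rintro y ⟨e, he, z, rfl⟩
      rw [SetLike.mem_coe, Submodule.mem_comap, act_apply, ← mul_smul]
      exact Submodule.subset_span ⟨N₁ * e, fun v => hV.shift s _ (he v), z, rfl⟩
    exact hle hx
  have hshiftp : ∀ (j : ℕ) (s : ℤ), ∀ x ∈ part K H W s, (N₁ ^ j) • x ∈ part K H W (s - 2 * j) := by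
    intro j
    induction j with
    | zero =>
      intro s x hx
      rw [pow_zero, one_smul, Nat.cast_zero, mul_zero, sub_zero]
      exact hx
    | succ j ih =>
      intro s x hx
      have h1 := hshift _ _ (ih s x hx)
      rw [act_apply, ← mul_smul, ← pow_succ'] at h1
      have h2 : s - 2 * (j : ℤ) - 2 = s - 2 * ((j + 1 : ℕ) : ℤ) := by push_cast; ring
      rwa [h2] at h1
  refine ⟨?_, ?_, ?_, hshift, ?_, ?_⟩
  · intro s
    refine Submodule.span_mono ?_
    rintro y ⟨e, he, z, rfl⟩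
    exact ⟨e, fun v => hV.mono s (he v), z, rfl⟩
  · obtain ⟨k, hk⟩ := hV.bot
    refine ⟨k, Submodule.span_eq_bot.2 ?_⟩
    rintro y ⟨e, he, z, rfl⟩
    have h1 : e = 0 := by
      ext v
      have h2 := he v
      rw [hk, Submodule.mem_bot] at h2
      rw [h2]
      rfl
    rw [h1, zero_smul]
  · obtain ⟨k, hk⟩ := hV.top
    refine ⟨k, Submodule.eq_top_iff'.2 fun y => ?_⟩
    refine Submodule.subset_span ⟨1, fun v => ?_, y, (one_smul _ y).symm⟩
    rw [hk]
    exact Submodule.mem_top
  · intro s x hx hx2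
    obtain ⟨g, hg1, -⟩ := hg s
    rw [hpow] at hx2
    have h1 := hs.zero_of_mem (-(s : ℤ)) _ hx2
    have h2 := hs.sub_mem (s : ℤ) x hx
    have h3 := hshiftp s _ _ h2
    have e3 : (s : ℤ) - 1 - 2 * (s : ℤ) = -(s : ℤ) - 1 := by ring
    rw [e3] at h3
    have h4 := hs.zero_of_mem (-(s : ℤ)) _ h3
    simp only [act_apply] at h1 h2 h3 h4
    have h5 : (p (-(s : ℤ)) * N₁ ^ s * p s) • x = 0 := by
      rw [smul_sub, smul_sub, h1, zero_sub, neg_eq_zero] at h4
      rw [mul_smul, mul_smul]
      exact h4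
    have h6 : p s • x = 0 := by
      rw [← hg1, mul_smul, h5, smul_zero]
    rw [h6, sub_zero] at h2
    exact h2
  · intro s y hy
    obtain ⟨g, -, hg2⟩ := hg s
    refine ⟨p s • (g • y), ?_, ?_⟩
    · have h1 := hs.proj_mem (s : ℤ) (g • y)
      simp only [act_apply] at h1
      exact h1
    · rw [hpow]
      have h1 : p s • (g • y) ∈ part K H W (s : ℤ) := by
        have h1 := hs.proj_mem (s : ℤ) (g • y)
        simp only [act_apply] at h1
        exact h1
      have h2 := hshiftp s _ _ h1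
      have e2 : (s : ℤ) - 2 * (s : ℤ) = -(s : ℤ) := by ring
      rw [e2] at h2
      have h3 : y - (N₁ ^ s) • (p s • (g • y)) ∈ part K H W (-(s : ℤ)) := Submodule.sub_mem _ hy h2
      have h4 := hs.sub_mem (-(s : ℤ)) _ h3
      simp only [act_apply] at h4
      have h5 : p (-(s : ℤ)) • (y - (N₁ ^ s) • (p s • (g • y))) = 0 := by
        rw [smul_sub, ← mul_smul, ← mul_smul, ← mul_smul, hg2, sub_self]
      rw [h5, sub_zero] at h4
      exact h4

end Pool.Agent.AF37
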