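import Pool.Agent.LibAF37.R8
import Pool.Agent.LibAF37.R10
import Pool.Agent.LibAF37.R11
import Pool.Agent.LibAF37.S1
import Pool.Agent.LibAF37.S4
import Pool.Agent.LibAF37.S5

/-!
The main theorem: weight-monodromy for a faithful set of theories implies it for all theories.
-/

namespace Pool.Agent.AF37

open Module Polynomial Pool.Agent.WM85 Pool.Agent.ND37 Pool.Agent.LibX1

theorem main {q : ℕ} (hq : 1 < q) {K A V : Type} [Field K] [CharZero K] [Ring A] [Algebra K A] [AddCommGroup V]
    [Module K V] [Module A V] [IsScalarTower K A V] [IsSemisimpleModule A V] {W : ℤ → Submodule A V}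
    {N₁ : Module.End A V} (hV : Family W N₁)
    {ι : Type} {H : ι → Type} [∀ i, AddCommGroup (H i)] [∀ i, Module K (H i)] [∀ i, FiniteDimensional K (H i)]
    [∀ i, Module (Module.End A V) (H i)] [∀ i, IsScalarTower K (Module.End A V) (H i)] {a : ι → ℤ}
    {N₀ F : ∀ i, Module.End K (H i)} (hT : ∀ i, Theory q W N₁ (a i) (N₀ i) (F i))
    (faithful : ∀ e : Module.End A V, e * e = e → (∀ i, ∀ x : H i, e • x = 0) → e = 0)
    (hWM : ∀ i, WM q (a i) (act K (H i) N₁ + N₀ i) (F i) ⊥ ⊤)
    {H' : Type} [AddCommGroup H'] [Module K H'] [FiniteDimensional K H'] [Module (Module.End A V) H']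
    [IsScalarTower K (Module.End A V) H'] {a' : ℤ} {N₀' F' : Module.End K H'} (hT' : Theory q W N₁ a' N₀' F') :
    WM q a' (act K H' N₁ + N₀') F' ⊥ ⊤ := by
  obtain ⟨b, p, hp⟩ := exists_splitA hV
  choose M hS using fun i => (hT i).sys hV hp
  have hI : ∀ i, IsMono (act K (H i) N₁ + N₀ i)
      (Tot (fun k => act K (H i) (p k)) (M0 (fun k => act K (H i) (p k)) (M i))) := by
    intro i
    obtain ⟨M₁, hM₁, hP₁⟩ := hWM i
    have h1 := (hS i).eq_Tot hq (N := act K (H i) N₁ + N₀ i) (fun x => by
      rw [LinearMap.add_apply, LinearMap.add_apply, (hS i).frob₁, (hS i).frob₀, map_add, smul_add])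
      (isMono_of_rel hM₁) hP₁
    rw [← h1]
    exact isMono_of_rel hM₁
  have hcomm : ∀ i, ∀ e : Module.End A V, N₀ i * act K (H i) e = act K (H i) e * N₀ i := by
    intro i e
    ext x
    simp only [Module.End.mul_apply, act_apply]
    exact (hT i).comm e x
  have hz : ∀ e : Module.End A V, e * e = e → (∀ i, act K (H i) e = 0) → e = 0 := by
    intro e he h0
    apply faithful e he
    intro i x
    rw [← act_apply (K := K), h0 i, LinearMap.zero_apply]
  have hg : ∀ k : ℕ, ∃ g : Module.End A V,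
      g * (p (-k) * N₁ ^ k * p k) = p k ∧ p (-k) * N₁ ^ k * p k * g = p (-k) := by
    intro k
    refine exists_inverse hV hp k (fun e he h1 h2 => ?_) (fun e he h1 h2 h3 => ?_)
    · refine hz e he fun i => ((hS i).no_ker (hI i) k (e := act K (H i) e) (by rw [← map_mul, he]) (hcomm i e)
        (by rw [← map_mul, h1]) (fun x => ?_))
      rw [← map_pow, ← Module.End.mul_apply, ← map_mul, act_apply]
      exact Submodule.subset_span ⟨N₁ ^ k * e, fun v => h2 v, x, rfl⟩
    · refine hz e he fun i => ((hS i).no_coker (hI i) k (e := act K (H i) e) (by rw [← map_mul, he]) (hcomm i e)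
        (by rw [← map_mul, h1]) (by rw [← map_mul, h2]) ?_)
      rw [← map_pow, ← map_mul, ← map_mul, h3, map_zero]
  obtain ⟨M', hS'⟩ := hT'.sys hV hp
  exact ⟨_, rel_of_isMono (hS'.forward hq (isMono_part hV hp hg)), hS'.pure_Tot hq⟩

end Pool.Agent.AF37
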