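import Pool.Agent.LibAF37.Sys

/-! R1 (SHORT/MEDIUM): F is injective. Plan: let F x = 0. If x ∈ M k s then R(F) x ∈ M k (s - 1) for the R of h.pure k s, and R(F) x = (R.coeff 0) x (all powers of F of exponent > 0 kill x:
aeval_eq_sum_range or aeval via aeval F R = algebraMap (R.coeff 0) + (aeval F R.divX) * F; Polynomial.divX_mul_X_add), R.coeff 0 ≠ 0 (Weil.ne_zero hq, LibX1/Pure), so x ∈ M k (s - 1) (char 0).
Going down from the top t (M k t = W k) to the bottom (M k t' = W (k - 1)), with RelMono.monotone (LibND37/G1): x ∈ W k implies x ∈ W (k - 1). Start: x ∈ W b, by h.split.mem_iff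
(π j = 0 for j > b, Grading.zero); after 2 b + 1 steps x ∈ W (-b - 1), so all π j x = 0 (mem_iff; π j = 0 for j < -b), x = sum of π j x = 0 (Grading.sum_apply). -/

namespace Pool.Agent.AF37

open Module Polynomial Pool.Agent.WM85 Pool.Agent.ND37 Pool.Agent.LibX1

variable {K H : Type} [Field K] [AddCommGroup H] [Module K H]

private theorem R1_aeval {F : Module.End K H} (R : ℤ[X]) {x : H} (hx : F x = 0) :
    (aeval F R) x = ((R.coeff 0 : ℤ) : K) • x := by
  have h1 : (aeval F R) = (aeval F (R.divX * X + C (R.coeff 0))) := by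
    rw [divX_mul_X_add]
  rw [h1, map_add, map_mul, aeval_X, aeval_C, LinearMap.add_apply, Module.End.mul_apply, hx,
    map_zero, zero_add]
  simp [Int.cast_smul_eq_zsmul]

private theorem R1_step [CharZero K] {q : ℕ} (hq : 1 < q) {w : ℤ} {F : Module.End K H}
    {M : ℤ → Submodule K H} {s : ℤ} (h : PureGr q w F M s) {x : H} (hx : F x = 0)
    (hs : x ∈ M s) : x ∈ M (s - 1) := by
  obtain ⟨R, hR, hR'⟩ := h
  have h1 := hR' x hs
  rw [R1_aeval R hx] at h1
  have h2 : ((R.coeff 0 : ℤ) : K) ≠ 0 := by
    exact_mod_cast hR.ne_zero hq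
  have h3 := (M (s - 1)).smul_mem (((R.coeff 0 : ℤ) : K)⁻¹) h1
  rwa [smul_smul, inv_mul_cancel₀ h2, one_smul] at h3

theorem Sys.frob_injective [CharZero K] {q : ℕ} (hq : 1 < q) {b : ℕ} {W : ℤ → Submodule K H}
    {π : ℤ → Module.End K H} {a : ℤ} {N₀ N₁ F : Module.End K H} {M : ℤ → ℤ → Submodule K H}
    (h : Sys q b W π a N₀ N₁ F M) : Function.Injective F := by
  rw [injective_iff_map_eq_zero]
  intro x hx
  have hW : ∀ k, x ∈ W k → x ∈ W (k - 1) := by
    intro k hk
    obtain ⟨t, ht⟩ := (h.rel k).top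
    obtain ⟨t', ht'⟩ := (h.rel k).bot
    have key : ∀ n : ℕ, x ∈ M k (t - n) := by
      intro n
      induction n with
      | zero =>
        have : t - ((0 : ℕ) : ℤ) = t := by simp
        rw [this, ht]; exact hk
      | succ n ih =>
        have h1 := R1_step hq (h.pure k (t - n)) hx ih
        have e : t - (n : ℤ) - 1 = t - ((n + 1 : ℕ) : ℤ) := by push_cast; ring
        rwa [e] at h1
    have h2 := (h.rel k).monotone (show t - ((t - t').toNat : ℤ) ≤ t' by omega) (key (t - t').toNat)
    rwa [ht'] at h2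
  have key : ∀ n : ℕ, x ∈ W ((b : ℤ) - n) := by
    intro n
    induction n with
    | zero =>
      rw [h.split.mem_iff]
      intro j hj
      have hj' : (b : ℤ) < j := by simpa using hj
      have h0 : π j = 0 := by
        have h1 : π j * (∑ k ∈ Finset.Icc (-(b : ℤ)) b, π k) = 0 := by
          rw [Finset.mul_sum]
          apply Finset.sum_eq_zero
          intro k hk
          rw [Finset.mem_Icc] at hk
          exact h.split.orth j k (by omega)
        rwa [h.split.sum, mul_one] at h1
      rw [h0, LinearMap.zero_apply]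
    | succ n ih =>
      have h1 := hW _ ih
      have e : (b : ℤ) - n - 1 = (b : ℤ) - ((n + 1 : ℕ) : ℤ) := by push_cast; ring
      rwa [e] at h1
  have hlow := key (2 * b + 1)
  rw [h.split.mem_iff] at hlow
  have h1 : x = (∑ k ∈ Finset.Icc (-(b : ℤ)) b, π k) x := by
    rw [h.split.sum, Module.End.one_apply]
  rw [h1, LinearMap.sum_apply]
  apply Finset.sum_eq_zero
  intro k hk
  rw [Finset.mem_Icc] at hk
  apply hlow
  push_cast
  omega

end Pool.Agent.AF37
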