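import Pool.Agent.LibAF37.Sys

/-! R2 (MEDIUM, easy): the monodromy filtration of N₀ on H. Plan, use mem_M0 everywhere; π k x ∈ W k (Split.proj_mem, LibND37/G5), π k = 0 outside [-b, b] (Grading.zero), N₀ (π k x) = π k (N₀ x)
(h.comm₀), N₀ (W k) ⊆ W k (mem_iff and comm₀), W (k - 1) ≤ M k s ≤ W k (rel.ge, rel.le), RelMono.monotone (LibND37/G1).
mono: clear. bot: choose s ≤ all s_k (k ∈ Icc (-b) b, M k s_k = W (k - 1)); x ∈ M0 s gives π k x ∈ W (k - 1), so π k x = π k (π k x) = 0 (Split.zero_of_mem), x = sum of π k x = 0 (Grading.sum_apply).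
top: s ≥ all t_k, M k t_k = W k. shift, inj: componentwise. surj: y ∈ M0 (-s): for each k choose x_k ∈ M k s with π k y - N₀ ^ s x_k ∈ M k (-s - 1); x = sum over Icc of π k x_k; π l x = π l x_l
(orthogonality), x_l - π l x_l ∈ W (l - 1) (Split.sub_mem), so π l x_l ∈ M l s and N₀ ^ s (x_l - π l x_l) ∈ W (l - 1) ≤ M l (-s - 1). -/

namespace Pool.Agent.AF37

open Module Polynomial Pool.Agent.WM85 Pool.Agent.ND37 Pool.Agent.LibX1

variable {K H : Type} [Field K] [AddCommGroup H] [Module K H]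

theorem Sys.isMono {q b : ℕ} {W : ℤ → Submodule K H} {π : ℤ → Module.End K H} {a : ℤ}
    {N₀ N₁ F : Module.End K H} {M : ℤ → ℤ → Submodule K H} (h : Sys q b W π a N₀ N₁ F M) :
    IsMono N₀ (M0 π M) := by
  have hs : Split b W π := h.split
  have hg : Grading b π := hs.toGrading
  have hc : ∀ (k : ℤ) (x : H), N₀ (π k x) = π k (N₀ x) := by
    intro k x
    rw [← Module.End.mul_apply, h.comm₀, Module.End.mul_apply]
  have hcp : ∀ (j : ℕ) (k : ℤ) (x : H), (N₀ ^ j) (π k x) = π k ((N₀ ^ j) x) := by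
    intro j
    induction j with
    | zero =>
      intro k x
      rw [pow_zero, Module.End.one_apply, Module.End.one_apply]
    | succ j ih =>
      intro k x
      rw [pow_succ', Module.End.mul_apply, Module.End.mul_apply, ih, hc]
  have hW : ∀ (j : ℕ) (k : ℤ) (x : H), x ∈ W k → (N₀ ^ j) x ∈ W k := by
    intro j k x hx
    rw [hs.mem_iff]
    intro i hi
    rw [← hcp, (hs.mem_iff k x).1 hx i hi, map_zero]
  refine ⟨?_, ?_, ?_, ?_, ?_, ?_⟩
  · intro s x hx
    rw [mem_M0] at hx ⊢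
    exact fun k => (h.rel k).mono s (hx k)
  · choose sk hsk using fun k => (h.rel k).bot
    obtain ⟨s, hs1⟩ := Finset.exists_le ((Finset.Icc (-(b : ℤ)) b).image fun k => -sk k)
    refine ⟨-s, ?_⟩
    rw [eq_bot_iff]
    intro x hx
    rw [mem_M0] at hx
    rw [Submodule.mem_bot, ← hg.sum_apply x]
    apply Finset.sum_eq_zero
    intro k hk
    have h0 : -sk k ≤ s := hs1 _ (Finset.mem_image_of_mem (fun k => -sk k) hk)
    have h1 : -s ≤ sk k := by omega
    have h2 : π k x ∈ M k (sk k) := (h.rel k).monotone h1 (hx k)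
    rw [hsk] at h2
    have h3 := hs.zero_of_mem k _ h2
    rwa [hg.apply_idem] at h3
  · choose tk htk using fun k => (h.rel k).top
    obtain ⟨s, hs1⟩ := Finset.exists_le ((Finset.Icc (-(b : ℤ)) b).image tk)
    refine ⟨s, ?_⟩
    rw [eq_top_iff]
    intro x _
    rw [mem_M0]
    intro k
    by_cases hk : k ∈ Finset.Icc (-(b : ℤ)) b
    · have h1 : tk k ≤ s := hs1 _ (Finset.mem_image_of_mem tk hk)
      apply (h.rel k).monotone h1
      rw [htk]
      exact hs.proj_mem k x
    · rw [hg.zero hk, LinearMap.zero_apply]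
      exact Submodule.zero_mem _
  · intro s x hx
    rw [mem_M0] at hx ⊢
    intro k
    rw [← hc]
    exact (h.rel k).shift s _ (hx k)
  · intro s x hx hNx
    rw [mem_M0] at hx hNx ⊢
    intro k
    apply (h.rel k).inj s _ (hx k)
    rw [hcp]
    exact hNx k
  · intro s y hy
    rw [mem_M0] at hy
    choose xk hxk hyk using fun k => (h.rel k).surj s (π k y) (hy k)
    have hsub : ∀ l, xk l - π l (xk l) ∈ W (l - 1) :=
      fun l => hs.sub_mem l _ ((h.rel l).le _ (hxk l))
    have hpi : ∀ l, π l (∑ k ∈ Finset.Icc (-(b : ℤ)) b, π k (xk k)) = π l (xk l) := by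
      intro l
      by_cases hl : l ∈ Finset.Icc (-(b : ℤ)) b
      · rw [map_sum, Finset.sum_eq_single l]
        · exact hg.apply_idem l _
        · intro k _ hkl
          exact hg.apply_orth (Ne.symm hkl) _
        · intro h'
          exact absurd hl h'
      · rw [hg.zero hl, LinearMap.zero_apply, LinearMap.zero_apply]
    refine ⟨∑ k ∈ Finset.Icc (-(b : ℤ)) b, π k (xk k), ?_, ?_⟩
    · rw [mem_M0]
      intro l
      rw [hpi]
      have h1 := Submodule.sub_mem _ (hxk l) ((h.rel l).ge (s : ℤ) (hsub l))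
      rwa [sub_sub_cancel] at h1
    · rw [mem_M0]
      intro l
      have h1 : π l (y - (N₀ ^ s) (∑ k ∈ Finset.Icc (-(b : ℤ)) b, π k (xk k)))
          = (π l y - (N₀ ^ s) (xk l)) + (N₀ ^ s) (xk l - π l (xk l)) := by
        rw [map_sub, ← hcp, hpi, map_sub]
        abel
      rw [h1]
      exact Submodule.add_mem _ (hyk l) ((h.rel l).ge _ (hW s _ _ (hsub l)))

end Pool.Agent.AF37
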