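import Pool.Agent.LibAF37.Sys

/-! R3 (SHORT): a monodromy filtration is stable under idempotent and under nilpotent operators which commute with N. Plan: 1 + e is injective (e e = e: (1 + e) x = 0 gives e x = - x, e x = e (e x) = - e x,
so 2 e x = 0; e nilpotent: IsNilpotent.isUnit_one_add), surjective (LinearMap.injective_iff_surjective), commutes with N; IsMono.stable (LibWM85/Mono) with F = 1 + e, c = 1; subtract x. -/

namespace Pool.Agent.AF37

open Module Polynomial Pool.Agent.WM85 Pool.Agent.ND37 Pool.Agent.LibX1

variable {K H : Type} [Field K] [AddCommGroup H] [Module K H]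

private theorem R3_aux [FiniteDimensional K H] {N e : Module.End K H} {P : ℤ → Submodule K H}
    (h : IsMono N P) (hi : Function.Injective ((1 + e : Module.End K H))) (hc : N * e = e * N) (s : ℤ) (x : H)
    (hx : x ∈ P s) : e x ∈ P s := by
  have hs : Function.Surjective ((1 + e : Module.End K H)) := LinearMap.injective_iff_surjective.1 hi
  have h1 := h.stable (F := (1 + e : Module.End K H)) (c := 1) one_ne_zero hi hs (fun y => by
    have h2 : N (e y) = e (N y) := by
      have := LinearMap.congr_fun hc y
      simpa [Module.End.mul_apply] using this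
    simp only [LinearMap.add_apply, Module.End.one_apply, map_add, one_smul, h2]) s hx
  rw [Submodule.mem_comap] at h1
  have h3 : e x = (1 + e : Module.End K H) x - x := by
    simp only [LinearMap.add_apply, Module.End.one_apply, add_sub_cancel_left]
  rw [h3]
  exact (P s).sub_mem h1 hx

theorem idem_stable [CharZero K] [FiniteDimensional K H] {N e : Module.End K H} {P : ℤ → Submodule K H}
    (h : IsMono N P) (he : e * e = e) (hc : N * e = e * N) (s : ℤ) (x : H) (hx : x ∈ P s) :
    e x ∈ P s := by
  refine R3_aux h ?_ hc s x hx
  rw [← LinearMap.ker_eq_bot, LinearMap.ker_eq_bot']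
  intro y hy
  simp only [LinearMap.add_apply, Module.End.one_apply] at hy
  have h1 : e y = -y := eq_neg_of_add_eq_zero_right hy
  have h2 : e (e y) = e y := by
    have := LinearMap.congr_fun he y
    simpa [Module.End.mul_apply] using this
  rw [h1, map_neg, h1, neg_neg] at h2
  have h3 : (2 : K) • y = 0 := by
    rw [two_smul]
    nth_rewrite 1 [h2]
    exact neg_add_cancel y
  exact (smul_eq_zero.1 h3).resolve_left two_ne_zero

theorem nilp_stable [FiniteDimensional K H] {N e : Module.End K H} {P : ℤ → Submodule K H}
    (h : IsMono N P) (he : IsNilpotent e) (hc : N * e = e * N) (s : ℤ) (x : H) (hx : x ∈ P s) :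
    e x ∈ P s := by
  refine R3_aux h ?_ hc s x hx
  exact ((Module.End.isUnit_iff _).1 he.isUnit_one_add).injective

end Pool.Agent.AF37
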