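import Pool.Agent.LibAF37.Sys

/-! R4 (MEDIUM, easy): the filtration by the total degree, use mem_Tot. Tot_map: π l (f x) = sum over k of π l (f (π k x)) (Grading.sum_apply for x); the term is 0 unless l ≤ k - d (hfW), and then
f (π k x) ∈ P (j - k - c) ≤ P (j - c - d - l), which π l preserves. mem_Tot_of: π k x = 0 for k > l (mem_iff), and for k ≤ l π k x ∈ P s ≤ P (l + s - k). Tot_mono: clear. Tot_bot: if P t = ⊥ then Tot (t - b) = ⊥
(components k in [-b, b], others are 0; Grading.zero, sum_apply). Tot_top: if P t = ⊤ then Tot (t + b) = ⊤. Tot_proj: π l x ∈ Tot j for x ∈ Tot j. -/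

namespace Pool.Agent.AF37

open Module Polynomial Pool.Agent.WM85 Pool.Agent.ND37 Pool.Agent.LibX1

variable {K H : Type} [Field K] [AddCommGroup H] [Module K H]

theorem Tot_map {b : ℕ} {π : ℤ → Module.End K H} (hπ : Grading b π) {P : ℤ → Submodule K H} (hP : Monotone P)
    (hPπ : ∀ k s, ∀ x ∈ P s, π k x ∈ P s) {f : Module.End K H} {c d : ℤ} (hf : ∀ s, ∀ x ∈ P s, f x ∈ P (s - c))
    (hfW : ∀ k l, k - d < l → π l * f * π k = 0) {j : ℤ} {x : H} (hx : x ∈ Tot π P j) :
    f x ∈ Tot π P (j - c - d) := by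
  rw [mem_Tot] at hx ⊢
  intro l
  have h1 : π l (f x) = ∑ k ∈ Finset.Icc (-(b : ℤ)) b, π l (f (π k x)) := by
    rw [← map_sum, ← map_sum, hπ.sum_apply]
  rw [h1]
  refine Submodule.sum_mem _ fun k _ => ?_
  by_cases hk : k - d < l
  · have h2 : π l (f (π k x)) = 0 := by
      have h3 := congrArg (fun g : Module.End K H => g x) (hfW k l hk)
      exact h3
    rw [h2]
    exact Submodule.zero_mem _
  · exact hPπ l _ _ (hP (show j - k - c ≤ j - c - d - l by omega) (hf _ _ (hx k)))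

theorem mem_Tot_of {b : ℕ} {W : ℤ → Submodule K H} {π : ℤ → Module.End K H} (hπ : Split b W π)
    {P : ℤ → Submodule K H} (hP : Monotone P) (hPπ : ∀ k s, ∀ x ∈ P s, π k x ∈ P s) {l s : ℤ} {x : H}
    (hW : x ∈ W l) (hs : x ∈ P s) : x ∈ Tot π P (l + s) := by
  rw [mem_Tot]
  intro k
  by_cases hk : l < k
  · rw [(hπ.mem_iff l x).1 hW k hk]
    exact Submodule.zero_mem _
  · exact hP (show s ≤ l + s - k by omega) (hPπ k s x hs)

theorem Tot_mono {π : ℤ → Module.End K H} {P : ℤ → Submodule K H} (hP : Monotone P) : Monotone (Tot π P) := by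
  intro i j hij x hx
  rw [mem_Tot] at hx ⊢
  exact fun k => hP (show i - k ≤ j - k by omega) (hx k)

theorem Tot_bot {b : ℕ} {π : ℤ → Module.End K H} (hπ : Grading b π) {P : ℤ → Submodule K H} (hP : Monotone P)
    (hb : ∃ t, P t = ⊥) : ∃ t, Tot π P t = ⊥ := by
  obtain ⟨t, ht⟩ := hb
  refine ⟨t - b, ?_⟩
  rw [Submodule.eq_bot_iff]
  intro x hx
  rw [mem_Tot] at hx
  rw [← hπ.sum_apply x]
  refine Finset.sum_eq_zero fun k hk => ?_
  rw [Finset.mem_Icc] at hk
  have h1 := hP (show t - b - k ≤ t by omega) (hx k)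
  rw [ht] at h1
  exact (Submodule.mem_bot K).1 h1

theorem Tot_top {b : ℕ} {π : ℤ → Module.End K H} (hπ : Grading b π) {P : ℤ → Submodule K H} (hP : Monotone P)
    (ht : ∃ t, P t = ⊤) : ∃ t, Tot π P t = ⊤ := by
  obtain ⟨t, ht⟩ := ht
  refine ⟨t + b, ?_⟩
  rw [Submodule.eq_top_iff']
  intro x
  rw [mem_Tot]
  intro k
  by_cases hk : k ∈ Finset.Icc (-(b : ℤ)) b
  · rw [Finset.mem_Icc] at hk
    have h1 : π k x ∈ P t := by
      rw [ht]
      exact Submodule.mem_top
    exact hP (show t ≤ t + b - k by omega) h1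
  · rw [hπ.zero hk, LinearMap.zero_apply]
    exact Submodule.zero_mem _

theorem Tot_proj {b : ℕ} {π : ℤ → Module.End K H} (hπ : Grading b π) {P : ℤ → Submodule K H} {l j : ℤ} {x : H}
    (hx : x ∈ Tot π P j) : π l x ∈ Tot π P j := by
  rw [mem_Tot] at hx ⊢
  intro k
  by_cases hk : k = l
  · rw [hk, hπ.apply_idem]
    exact hx l
  · rw [hπ.apply_orth hk]
    exact Submodule.zero_mem _

end Pool.Agent.AF37
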