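import Pool.Agent.LibAF37.R5a

/-! R5 (MEDIUM): F is pure of weight a + j on Tot j / Tot (j - 1). Plan: P = M0 π M. For each k take R_k (Weil q (a + k + (j - k))) from h.pure k (j - k); R = product of the R_k over Icc (-b) b, Weil q (a + j)
(Weil.mul, Weil.one, induction over the finset; a + k + (j - k) = a + j). Claim: for x ∈ Tot j and y = π k x, z = R_k(F) y ∈ Tot (j - 1). y ∈ P (j - k) (π k (π k x) = π k x, π l (π k x) = 0 otherwise, 0 ∈ M l s),
y ∈ M k (j - k), y ∈ W k. So z ∈ M k (j - k - 1), z ∈ W k, z ∈ P (j - k) (Sys.F_P, aeval_mem of LibX1/Grade). π l z for l > k is 0 (mem_iff); for l = k: z - π k z ∈ W (k - 1) ≤ M k (j - k - 1) (Split.sub_mem of LibND37/G5,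
rel.ge), so π k z ∈ M k (j - 1 - k), and π k z ∈ P (j - 1 - k) because its other components are 0; for l < k: π l z ∈ P (j - k) ≤ P (j - 1 - l) (Sys.proj_P, monotone). So z ∈ Tot (j - 1). Finally
R(F) x = sum over k ∈ Icc of R(F) (π k x), R = R' R_k, and Tot (j - 1) is stable under R'(F) (Sys.F_Tot, aeval_mem). -/

namespace Pool.Agent.AF37

open Module Polynomial Pool.Agent.WM85 Pool.Agent.ND37 Pool.Agent.LibX1

variable {K H : Type} [Field K] [AddCommGroup H] [Module K H]

private theorem R5_mem_Tot {q : ℕ} {b : ℕ} {W : ℤ → Submodule K H}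
    {π : ℤ → Module.End K H} {a : ℤ} {N₀ N₁ F : Module.End K H} {M : ℤ → ℤ → Submodule K H}
    (h : Sys q b W π a N₀ N₁ F M) (j : ℤ) (x : H) :
    x ∈ Tot π (M0 π M) j ↔ ∀ k, π k x ∈ M k (j - k) := by
  rw [mem_Tot]
  constructor
  · intro hx k
    have h1 := mem_M0.1 (hx k) k
    rwa [h.split.toGrading.apply_idem] at h1
  · intro hx k
    rw [mem_M0]
    intro l
    rcases eq_or_ne l k with rfl | hne
    · rw [h.split.toGrading.apply_idem]
      exact hx l
    · rw [h.split.toGrading.apply_orth hne]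
      exact Submodule.zero_mem _

theorem Sys.pure_Tot [CharZero K] [FiniteDimensional K H] {q : ℕ} (hq : 1 < q) {b : ℕ} {W : ℤ → Submodule K H}
    {π : ℤ → Module.End K H} {a : ℤ} {N₀ N₁ F : Module.End K H} {M : ℤ → ℤ → Submodule K H}
    (h : Sys q b W π a N₀ N₁ F M) (j : ℤ) : PureGr q (a + j) F (Tot π (M0 π M)) j := by
  classical
  choose R hR1 hR2 using fun k => h.pure k (j - k)
  have hwt : ∀ k, Weil q (a + j) (R k) := by
    intro k
    have h1 := hR1 k
    rwa [show a + k + (j - k) = a + j by ring] at h1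
  refine ⟨∏ k ∈ Finset.Icc (-(b : ℤ)) b, R k, ?_, fun x hx => ?_⟩
  · exact Finset.prod_induction R (fun r => Weil q (a + j) r) (fun _ _ h1 h2 => h1.mul h2) (Weil.one q _)
      (fun k _ => hwt k)
  · have hkey : ∀ k, (aeval F (R k)) (π k x) ∈ Tot π (M0 π M) (j - 1) := by
      intro k
      have hyP : π k x ∈ M0 π M (j - k) := mem_Tot.1 hx k
      have hyM : π k x ∈ M k (j - k) := (R5_mem_Tot h j x).1 hx k
      have hzM := hR2 k _ hyM
      have hzP : (aeval F (R k)) (π k x) ∈ M0 π M (j - k) :=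
        aeval_mem F (fun y hy => h.F_P hq _ y hy) (R k) hyP
      have hzW : (aeval F (R k)) (π k x) ∈ W k :=
        aeval_mem F (fun y hy => h.stable k y hy) (R k) (h.split.proj_mem k x)
      rw [R5_mem_Tot h]
      intro l
      rcases lt_trichotomy l k with hl | hl | hl
      · have h1 := mem_M0.1 hzP l
        exact (h.rel l).monotone (show j - k ≤ j - 1 - l by omega) h1
      · subst hl
        have h1 := (h.rel l).ge (j - l - 1) (h.split.sub_mem l _ hzW)
        have h2 := (M l (j - l - 1)).sub_mem hzM h1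
        rw [sub_sub_cancel] at h2
        rwa [show j - 1 - l = j - l - 1 by ring]
      · rw [(h.split.mem_iff k _).1 hzW l hl]
        exact Submodule.zero_mem _
    have e : (aeval F (∏ k ∈ Finset.Icc (-(b : ℤ)) b, R k)) x =
        ∑ k ∈ Finset.Icc (-(b : ℤ)) b, (aeval F (∏ k ∈ Finset.Icc (-(b : ℤ)) b, R k)) (π k x) := by
      rw [← map_sum, h.split.toGrading.sum_apply]
    rw [e]
    refine Submodule.sum_mem _ fun k hk => ?_
    obtain ⟨c, hc⟩ := Finset.dvd_prod_of_mem R hk
    rw [hc, mul_comm, map_mul, Module.End.mul_apply]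
    exact aeval_mem F (fun y hy => h.F_Tot hq _ y hy) c (hkey k)

end Pool.Agent.AF37
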