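import Pool.Agent.LibAF37.R1
import Pool.Agent.LibAF37.R2
import Pool.Agent.LibAF37.R3
import Pool.Agent.LibAF37.R4

/-! R5a (SHORT): collected facts for P = M0 π M. (1) P is monotone (IsMono.monotone of h.isMono). (2) P s is stable under π k (idem_stable), under N₁ (nilp_stable: N₁ is nilpotent, N₁ ^ i (W k) ⊆ W (k - 2 i),
W b = ⊤, W (-b - 1) = ⊥ by mem_iff), under F (IsMono.stable of LibWM85/Mono with c = q, h.frob_injective, injective = surjective in finite dimension). (3) N₀, N₁ lower Tot by 2 (Tot_map with c = 2, d = 0 and with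
c = 0, d = 2), F preserves Tot (c = d = 0); π l N₁ π k = 0 for l > k - 2 (proj_mem, shift, mem_iff), π l N₀ π k = 0 for l > k (even l ≠ k), π l F π k = 0 for l > k. -/

namespace Pool.Agent.AF37

open Module Polynomial Pool.Agent.WM85 Pool.Agent.ND37 Pool.Agent.LibX1

variable {K H : Type} [Field K] [AddCommGroup H] [Module K H]

variable {q b : ℕ} {W : ℤ → Submodule K H} {π : ℤ → Module.End K H} {a : ℤ}
    {N₀ N₁ F : Module.End K H} {M : ℤ → ℤ → Submodule K H}

theorem Sys.proj_P [CharZero K] [FiniteDimensional K H] (h : Sys q b W π a N₀ N₁ F M) (k s : ℤ) (x : H)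
    (hx : x ∈ M0 π M s) : π k x ∈ M0 π M s :=
  idem_stable h.isMono (h.split.idem k) (h.comm₀ k) s x hx

private theorem R5a_shift_pow (h : Sys q b W π a N₀ N₁ F M) (i : ℕ) :
    ∀ k, ∀ x ∈ W k, (N₁ ^ i) x ∈ W (k - 2 * i) := by
  induction i with
  | zero => intro k x hx; simpa using hx
  | succ n ih =>
    intro k x hx
    rw [pow_succ', Module.End.mul_apply]
    have h1 := h.shift _ _ (ih k x hx)
    have h2 : k - 2 * (n : ℤ) - 2 = k - 2 * ((n + 1 : ℕ) : ℤ) := by push_cast; ring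
    rwa [h2] at h1

private theorem R5a_top (h : Sys q b W π a N₀ N₁ F M) (x : H) : x ∈ W b := by
  rw [h.split.mem_iff]
  intro j hj
  rw [h.split.toGrading.zero (k := j) (by simp only [Finset.mem_Icc]; omega), LinearMap.zero_apply]

private theorem R5a_bot (h : Sys q b W π a N₀ N₁ F M) {k : ℤ} (hk : k < -(b : ℤ)) (x : H)
    (hx : x ∈ W k) : x = 0 := by
  rw [← h.split.toGrading.sum_apply x]
  apply Finset.sum_eq_zero
  intro j hj
  rw [Finset.mem_Icc] at hj
  exact (h.split.mem_iff k x).1 hx j (by omega)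

theorem Sys.N₁_nilp (h : Sys q b W π a N₀ N₁ F M) : IsNilpotent N₁ := by
  refine ⟨b + 1, ?_⟩
  ext x
  rw [LinearMap.zero_apply]
  refine R5a_bot h (k := (b : ℤ) - 2 * ((b + 1 : ℕ) : ℤ)) (by push_cast; omega) _ ?_
  exact R5a_shift_pow h (b + 1) b x (R5a_top h x)

theorem Sys.N₁_P [FiniteDimensional K H] (h : Sys q b W π a N₀ N₁ F M) (s : ℤ) (x : H)
    (hx : x ∈ M0 π M s) : N₁ x ∈ M0 π M s :=
  nilp_stable h.isMono h.N₁_nilp h.comm s x hx

theorem Sys.F_P [CharZero K] [FiniteDimensional K H] (hq : 1 < q) (h : Sys q b W π a N₀ N₁ F M) (s : ℤ) (x : H)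
    (hx : x ∈ M0 π M s) : F x ∈ M0 π M s := by
  have hc : (q : K) ≠ 0 := Nat.cast_ne_zero.2 (by omega)
  have hFi := h.frob_injective hq
  have hFs := LinearMap.injective_iff_surjective.mp hFi
  exact h.isMono.stable hc hFi hFs h.frob₀ s hx

theorem Sys.N₁_block (h : Sys q b W π a N₀ N₁ F M) (k l : ℤ) (hkl : k - 2 < l) : π l * N₁ * π k = 0 := by
  ext x
  rw [Module.End.mul_apply, Module.End.mul_apply, LinearMap.zero_apply]
  exact (h.split.mem_iff (k - 2) _).1 (h.shift k _ (h.split.proj_mem k x)) l hkl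

theorem Sys.N₀_Tot [CharZero K] [FiniteDimensional K H] (h : Sys q b W π a N₀ N₁ F M) (j : ℤ) (x : H)
    (hx : x ∈ Tot π (M0 π M) j) : N₀ x ∈ Tot π (M0 π M) (j - 2) := by
  have h1 := Tot_map (c := 2) (d := 0) h.split.toGrading h.isMono.monotone h.proj_P
    h.isMono.shift (fun k l hkl => by
      rw [mul_assoc, h.comm₀ k, ← mul_assoc, h.split.orth l k (by omega), zero_mul]) hx
  rwa [sub_zero] at h1

theorem Sys.N₁_Tot [CharZero K] [FiniteDimensional K H] (h : Sys q b W π a N₀ N₁ F M) (j : ℤ) (x : H)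
    (hx : x ∈ Tot π (M0 π M) j) : N₁ x ∈ Tot π (M0 π M) (j - 2) := by
  have h1 := Tot_map (c := 0) (d := 2) h.split.toGrading h.isMono.monotone h.proj_P
    (f := N₁) (fun s x hx => by rw [sub_zero]; exact h.N₁_P s x hx) h.N₁_block hx
  rwa [sub_zero] at h1

theorem Sys.F_Tot [CharZero K] [FiniteDimensional K H] (hq : 1 < q) (h : Sys q b W π a N₀ N₁ F M) (j : ℤ) (x : H)
    (hx : x ∈ Tot π (M0 π M) j) : F x ∈ Tot π (M0 π M) j := by
  have h1 := Tot_map (c := 0) (d := 0) h.split.toGrading h.isMono.monotone h.proj_P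
    (f := F) (fun s x hx => by rw [sub_zero]; exact h.F_P hq s x hx) (fun k l hkl => by
      ext x
      rw [Module.End.mul_apply, Module.End.mul_apply, LinearMap.zero_apply]
      exact (h.split.mem_iff k _).1 (h.stable k _ (h.split.proj_mem k x)) l (by omega)) hx
  rwa [sub_zero, sub_zero] at h1

end Pool.Agent.AF37
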