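import Pool.Agent.LibAF37.Sys

/-! R6 (MEDIUM, easy): uniqueness of the weight filtration. Plan: (i) for x ∈ M j there is R with R(F) x = 0, R a product of polynomials of weights ≤ a + j, that is for every w > a + j and every Weil q w R' the
images of R and R' in K[X] are coprime: induction from the bottom t of M (M t = ⊥): x ∈ M t: R = 1; x ∈ M s, s > t: R_s(F) x ∈ M (s - 1) has such an R, take R * R_s (Weil.coprime in LibX1/Grade, IsCoprime.mul_left).
(ii) let x ∈ M j; show x ∈ M' s for all s ≥ j by going down from the top of M': if x ∈ M' s with s > j then with R'_s of hP' s: R'_s(F) x ∈ M' (s - 1), and u R + w R'_s = 1 in K[X] gives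
x = w(F) (R'_s(F) x) ∈ M' (s - 1) (M' (s - 1) is F-stable, so stable under all polynomials of F: aeval_mem in LibX1/Grade). -/

namespace Pool.Agent.AF37

open Module Polynomial Pool.Agent.WM85 Pool.Agent.ND37 Pool.Agent.LibX1

variable {K H : Type} [Field K] [AddCommGroup H] [Module K H]

theorem weight_le [CharZero K] {q : ℕ} (hq : 1 < q) {F : Module.End K H} {M M' : ℤ → Submodule K H} {a : ℤ}
    (hM : Monotone M) (hM' : Monotone M') (hb : ∃ t, M t = ⊥) (ht : ∃ t, M' t = ⊤)
    (hF' : ∀ s, M' s ≤ (M' s).comap F) (hP : ∀ s, PureGr q (a + s) F M s)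
    (hP' : ∀ s, PureGr q (a + s) F M' s) (j : ℤ) : M j ≤ M' j := by
  obtain ⟨t, ht0⟩ := hb
  obtain ⟨T, hT⟩ := ht
  have key : ∀ n : ℕ, ∀ x ∈ M (t + n), ∃ R : K[X], (aeval F R) x = 0 ∧ ∀ w : ℤ, a + (t + n) < w →
      ∀ R' : ℤ[X], Weil q w R' → IsCoprime R (R'.map (algebraMap ℤ K)) := by
    intro n
    induction n with
    | zero =>
      intro x hx
      rw [Nat.cast_zero, add_zero, ht0, Submodule.mem_bot] at hx
      exact ⟨1, by rw [hx, map_zero], fun _ _ _ _ => isCoprime_one_left⟩
    | succ n ih =>
      intro x hx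
      obtain ⟨Rs, hRs, hR⟩ := hP (t + ((n + 1 : ℕ) : ℤ))
      have h1 := hR x hx
      have h2 : t + ((n + 1 : ℕ) : ℤ) - 1 = t + n := by push_cast; ring
      rw [h2] at h1
      obtain ⟨R, hR0, hRc⟩ := ih _ h1
      refine ⟨R * Rs.map (algebraMap ℤ K), ?_, ?_⟩
      · rw [map_mul, Module.End.mul_apply, aeval_map_algebraMap]
        exact hR0
      · intro w hw R' hR'
        refine IsCoprime.mul_left (hRc w (by push_cast at hw; omega) R' hR')
          (Weil.coprime K hq (ne_of_lt hw) hRs hR')
  intro x hx
  by_cases hjt : j < t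
  · have h1 := hM hjt.le hx
    rw [ht0, Submodule.mem_bot] at h1
    rw [h1]
    exact Submodule.zero_mem _
  · obtain ⟨n, hn⟩ : ∃ n : ℕ, t + (n : ℤ) = j := ⟨(j - t).toNat, by omega⟩
    obtain ⟨R, hR0, hRc⟩ := key n x (by rw [hn]; exact hx)
    have key2 : ∀ m : ℕ, j ≤ T - (m : ℤ) → x ∈ M' (T - m) := by
      intro m
      induction m with
      | zero =>
        intro _
        rw [Nat.cast_zero, sub_zero, hT]
        exact Submodule.mem_top
      | succ m ih =>
        intro hm
        have h3 := ih (by push_cast at hm; omega)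
        obtain ⟨R', hR', hR1⟩ := hP' (T - m)
        have h4 := hR1 x h3
        have h5 : T - (m : ℤ) - 1 = T - ((m + 1 : ℕ) : ℤ) := by push_cast; ring
        rw [h5] at h4
        obtain ⟨u, w, huw⟩ := hRc (a + (T - m)) (by push_cast at hm; omega) R' hR'
        have h6 : (aeval F (u * R + w * R'.map (algebraMap ℤ K))) x = x := by
          rw [huw, map_one, Module.End.one_apply]
        rw [map_add, LinearMap.add_apply, map_mul, Module.End.mul_apply, hR0, map_zero, zero_add,
          map_mul, Module.End.mul_apply, aeval_map_algebraMap] at h6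
        rw [← h6]
        exact aeval_mem F (hF' _) w h4
    by_cases hTj : T < j
    · have h1 : M' T ≤ M' j := hM' hTj.le
      rw [hT] at h1
      exact h1 Submodule.mem_top
    · have h1 := key2 (T - j).toNat (by omega)
      have h7 : T - (((T - j).toNat : ℕ) : ℤ) = j := by omega
      rwa [h7] at h1

end Pool.Agent.AF37
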