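import Pool.Agent.LibAF37.Sys

/-! R7 (SHORT/MEDIUM): changes of the operator. perturb: (N + D) ^ i - N ^ i maps M s to M (s - 2 i - 1) (induction on i: (N + D) ^ (i+1) - N ^ (i+1) = (N + D) ((N + D) ^ i - N ^ i) + D N ^ i, N + D lowers by 2,
D by 3), so inj and surj pass from N to N + D. transport: g is a linear equivalence with g (M s) = M s (both inclusions) and N' g = g N: transfer all fields (N' ^ i (g x) = g (N ^ i x)). smul: powers are mu ^ i N ^ i. -/

namespace Pool.Agent.AF37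

open Module Polynomial Pool.Agent.WM85 Pool.Agent.ND37 Pool.Agent.LibX1

variable {K H : Type} [Field K] [AddCommGroup H] [Module K H]

private theorem R7_diff {N D : Module.End K H} {M : ℤ → Submodule K H} (h : IsMono N M)
    (hD : ∀ s, ∀ x ∈ M s, D x ∈ M (s - 3)) (i : ℕ) :
    ∀ s, ∀ x ∈ M s, (N ^ i) x ∈ M (s - 2 * i) ∧
      ((N + D) ^ i) x - (N ^ i) x ∈ M (s - 2 * i - 1) := by
  induction i with
  | zero =>
    intro s x hx
    refine ⟨?_, ?_⟩
    · simpa using hx
    · simp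
  | succ i ih =>
    intro s x hx
    obtain ⟨h1, h2⟩ := ih s x hx
    refine ⟨?_, ?_⟩
    · rw [pow_succ', Module.End.mul_apply]
      have e : s - 2 * ((i + 1 : ℕ) : ℤ) = s - 2 * (i : ℤ) - 2 := by push_cast; ring
      rw [e]
      exact h.shift _ _ h1
    · have e : s - 2 * ((i + 1 : ℕ) : ℤ) - 1 = s - 2 * (i : ℤ) - 3 := by push_cast; ring
      rw [e]
      have key : ((N + D) ^ (i + 1)) x - (N ^ (i + 1)) x
          = N (((N + D) ^ i) x - (N ^ i) x) + D (((N + D) ^ i) x - (N ^ i) x)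
            + D ((N ^ i) x) := by
        rw [pow_succ', pow_succ', Module.End.mul_apply, Module.End.mul_apply,
          LinearMap.add_apply, map_sub, map_sub]
        abel
      rw [key]
      have a1 : N (((N + D) ^ i) x - (N ^ i) x) ∈ M (s - 2 * (i : ℤ) - 3) := by
        have := h.shift _ _ h2
        have e2 : s - 2 * (i : ℤ) - 1 - 2 = s - 2 * (i : ℤ) - 3 := by ring
        rwa [e2] at this
      have a2 : D (((N + D) ^ i) x - (N ^ i) x) ∈ M (s - 2 * (i : ℤ) - 3) := by
        have := hD _ _ h2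
        have e2 : s - 2 * (i : ℤ) - 1 - 3 = (s - 2 * (i : ℤ) - 3) - 1 := by ring
        rw [e2] at this
        exact h.mono _ this
      have a3 : D ((N ^ i) x) ∈ M (s - 2 * (i : ℤ) - 3) := hD _ _ h1
      exact (M _).add_mem ((M _).add_mem a1 a2) a3

theorem mono_perturb {N D : Module.End K H} {M : ℤ → Submodule K H} (h : IsMono N M)
    (hD : ∀ s, ∀ x ∈ M s, D x ∈ M (s - 3)) : IsMono (N + D) M := by
  have e : ∀ s : ℕ, (s : ℤ) - 2 * (s : ℤ) - 1 = -(s : ℤ) - 1 := fun s => by ring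
  refine ⟨h.mono, h.bot, h.top, ?_, ?_, ?_⟩
  · intro s x hx
    rw [LinearMap.add_apply]
    refine (M _).add_mem (h.shift s x hx) ?_
    have := hD s x hx
    have e2 : s - 3 = (s - 2) - 1 := by ring
    rw [e2] at this
    exact h.mono _ this
  · intro s x hx hx2
    have hd := (R7_diff h hD s (s : ℤ) x hx).2
    rw [e s] at hd
    refine h.inj s x hx ?_
    have := (M (-(s : ℤ) - 1)).sub_mem hx2 hd
    rwa [sub_sub_cancel] at this
  · intro s y hy
    obtain ⟨x, hx, hxy⟩ := h.surj s y hy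
    have hd := (R7_diff h hD s (s : ℤ) x hx).2
    rw [e s] at hd
    refine ⟨x, hx, ?_⟩
    have := (M (-(s : ℤ) - 1)).sub_mem hxy hd
    have e3 : y - (N ^ s) x - (((N + D) ^ s) x - (N ^ s) x) = y - ((N + D) ^ s) x := by abel
    rwa [e3] at this

theorem mono_transport {N N' : Module.End K H} {M : ℤ → Submodule K H} (h : IsMono N M) {g g' : Module.End K H}
    (h1 : ∀ x, g (g' x) = x) (h2 : ∀ x, g' (g x) = x) (hg : ∀ s, ∀ x ∈ M s, g x ∈ M s)
    (hg' : ∀ s, ∀ x ∈ M s, g' x ∈ M s) (hN : ∀ x, N' (g x) = g (N x)) : IsMono N' M := by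
  have hp : ∀ i : ℕ, ∀ x, (N' ^ i) (g x) = g ((N ^ i) x) := by
    intro i
    induction i with
    | zero => intro x; simp
    | succ i ih =>
      intro x
      rw [pow_succ', pow_succ', Module.End.mul_apply, Module.End.mul_apply, ih, hN]
  refine ⟨h.mono, h.bot, h.top, ?_, ?_, ?_⟩
  · intro s x hx
    have := hg _ _ (h.shift s _ (hg' s x hx))
    rw [← hN, h1] at this
    exact this
  · intro s x hx hx2
    have hx3 : (N' ^ s) x = g ((N ^ s) (g' x)) := by rw [← hp, h1]
    rw [hx3] at hx2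
    have h4 := hg' _ _ hx2
    rw [h2] at h4
    have h5 := hg _ _ (h.inj s (g' x) (hg' _ _ hx) h4)
    rw [h1] at h5
    exact h5
  · intro s y hy
    obtain ⟨x, hx, hxy⟩ := h.surj s (g' y) (hg' _ _ hy)
    refine ⟨g x, hg _ _ hx, ?_⟩
    have h4 := hg _ _ hxy
    rw [map_sub, h1, ← hp] at h4
    exact h4

end Pool.Agent.AF37
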