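import Pool.Agent.LibAF37.R5
import Pool.Agent.LibAF37.R6

/-! R8a (SHORT): if a filtration M' is the monodromy filtration of an operator N with N F = q F N and F is pure of weight a + s on gr_s M', then M' = Tot. Plan: weight_le in both directions; monotone: IsMono.monotone
(LibWM85/Mono), Tot_mono; bot, top: h'.bot, h'.top, Tot_bot, Tot_top (with h.isMono.bot, .top); F-stable: IsMono.stable (c = q, h.frob_injective, finite dimension), Sys.F_Tot; purity: hP', Sys.pure_Tot. -/

namespace Pool.Agent.AF37

open Module Polynomial Pool.Agent.WM85 Pool.Agent.ND37 Pool.Agent.LibX1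

variable {K H : Type} [Field K] [AddCommGroup H] [Module K H]

theorem Sys.eq_Tot [CharZero K] [FiniteDimensional K H] {q : ℕ} (hq : 1 < q) {b : ℕ} {W : ℤ → Submodule K H}
    {π : ℤ → Module.End K H} {a : ℤ} {N₀ N₁ F : Module.End K H} {M : ℤ → ℤ → Submodule K H}
    (h : Sys q b W π a N₀ N₁ F M) {N : Module.End K H} (hN : ∀ x, N (F x) = (q : K) • F (N x))
    {M' : ℤ → Submodule K H} (h' : IsMono N M') (hP' : ∀ s, PureGr q (a + s) F M' s) :
    M' = Tot π (M0 π M) := by
  have hP := h.isMono.monotone
  have hG : Grading b π := h.split.toGrading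
  have hq0 : (q : K) ≠ 0 := Nat.cast_ne_zero.mpr (by omega)
  have hFi : Function.Injective F := h.frob_injective hq
  have hFs : Function.Surjective F := LinearMap.injective_iff_surjective.mp hFi
  funext j
  apply le_antisymm
  · exact weight_le hq h'.monotone (Tot_mono hP) h'.bot (Tot_top hG hP h.isMono.top)
      (fun s x hx => h.F_Tot hq s x hx) hP' (fun s => h.pure_Tot hq s) j
  · exact weight_le hq (Tot_mono hP) h'.monotone (Tot_bot hG hP h.isMono.bot) h'.top
      (fun s => h'.stable hq0 hFi hFs hN s) (fun s => h.pure_Tot hq s) hP' j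

end Pool.Agent.AF37
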