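import Pool.Agent.LibAF37.R5a

/-! R8b (MEDIUM): n = sum over k ∈ Icc (-b) b of π (k - 2) N₁ π k = symb b π 2 N₁ (LibND37/Defs). diff_Tot: D = N₁ - n has blocks π l D π k = 0 for l > k - 3 (for l = k - 2: symb_mul; for l > k - 2 both vanish:
Sys.N₁_block, orth) and preserves P = M0 π M (Sys.N₁_P, Sys.proj_P), so Tot_map with c = 0, d = 3. conj: for t ≠ 0 put g = sum over k ∈ Icc (-b) b of t ^ k π k (zpow; use (t ^ k) • π k), g' the same with t⁻¹: g g' = 1,
g n = t⁻² n g, g N₀ = N₀ g, and g, g' preserve Tot (Tot_proj, sum_mem, smul_mem). -/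

namespace Pool.Agent.AF37

open Module Polynomial Pool.Agent.WM85 Pool.Agent.ND37 Pool.Agent.LibX1

variable {K H : Type} [Field K] [AddCommGroup H] [Module K H]

variable {q b : ℕ} {W : ℤ → Submodule K H} {π : ℤ → Module.End K H} {a : ℤ}
    {N₀ N₁ F : Module.End K H} {M : ℤ → ℤ → Submodule K H}

private theorem R8b_P_mono (h : Sys q b W π a N₀ N₁ F M) : Monotone (M0 π M) := by
  intro s t hst x hx
  rw [mem_M0] at hx ⊢
  intro k
  exact (h.rel k).monotone hst (hx k)

private theorem R8b_block (h : Sys q b W π a N₀ N₁ F M) (k l : ℤ) (hkl : k - 3 < l) :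
    π l * (N₁ - symb b π 2 N₁) * π k = 0 := by
  have hG := h.split.toGrading
  rw [mul_assoc, sub_mul, symb_mul hG, mul_sub]
  rcases eq_or_ne l (k - 2) with rfl | hne
  · rw [← mul_assoc (π (k - 2)) (π (k - 2) * N₁), ← mul_assoc (π (k - 2)) (π (k - 2)), hG.idem,
      mul_assoc, sub_self]
  · rw [← mul_assoc, h.N₁_block k l (by omega), ← mul_assoc (π l) (π (k - 2) * N₁),
      ← mul_assoc (π l) (π (k - 2)), hG.orth l (k - 2) hne, zero_mul, zero_mul, sub_zero]

theorem Sys.diff_Tot [CharZero K] [FiniteDimensional K H] (h : Sys q b W π a N₀ N₁ F M) (j : ℤ) (x : H)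
    (hx : x ∈ Tot π (M0 π M) j) : (N₁ - symb b π 2 N₁) x ∈ Tot π (M0 π M) (j - 3) := by
  have hG := h.split.toGrading
  have h1 := Tot_map (f := N₁ - symb b π 2 N₁) (c := 0) (d := 3) hG (R8b_P_mono h)
    (fun k s y hy => h.proj_P k s y hy) ?_ (fun k l hkl => R8b_block h k l hkl) hx
  · rwa [sub_zero] at h1
  · intro s y hy
    rw [sub_zero, LinearMap.sub_apply]
    apply Submodule.sub_mem
    · exact h.N₁_P s y hy
    · rw [symb, LinearMap.sum_apply]
      apply Submodule.sum_mem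
      intro k _
      rw [Module.End.mul_apply, Module.End.mul_apply]
      exact h.proj_P _ _ _ (h.N₁_P _ _ (h.proj_P _ _ _ hy))

/-- The operator which is `t ^ k` on the part of degree `k`. -/
private noncomputable def R8b_g (b : ℕ) (π : ℤ → Module.End K H) (t : K) : Module.End K H :=
  ∑ k ∈ Finset.Icc (-(b : ℤ)) b, ((t ^ k) • (1 : Module.End K H)) * π k

private theorem R8b_g_mul (hG : Grading b π) (t : K) (k : ℤ) :
    R8b_g b π t * π k = (t ^ k) • π k := by
  rw [R8b_g, hG.sum_mul (fun l => (t ^ l) • (1 : Module.End K H)) k, smul_mul_assoc, one_mul]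

private theorem R8b_g_inv (hG : Grading b π) {t : K} (ht : t ≠ 0) :
    R8b_g b π t * R8b_g b π t⁻¹ = 1 := by
  apply hG.ext
  intro k
  rw [mul_assoc, R8b_g_mul hG, mul_smul_comm, R8b_g_mul hG, smul_smul, one_mul, inv_zpow,
    inv_mul_cancel₀ (zpow_ne_zero k ht), one_smul]

private theorem R8b_g_Tot (hG : Grading b π) (t : K) {P : ℤ → Submodule K H} (j : ℤ) (x : H)
    (hx : x ∈ Tot π P j) : R8b_g b π t x ∈ Tot π P j := by
  rw [R8b_g, LinearMap.sum_apply]
  apply Submodule.sum_mem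
  intro k _
  rw [Module.End.mul_apply, LinearMap.smul_apply, Module.End.one_apply]
  exact Submodule.smul_mem _ _ (Tot_proj hG hx)

theorem Sys.conj (h : Sys q b W π a N₀ N₁ F M) {t : K} (ht : t ≠ 0) :
    ∃ g g' : Module.End K H, (∀ x, g (g' x) = x) ∧ (∀ x, g' (g x) = x) ∧
      (∀ j, ∀ x ∈ Tot π (M0 π M) j, g x ∈ Tot π (M0 π M) j) ∧
      (∀ j, ∀ x ∈ Tot π (M0 π M) j, g' x ∈ Tot π (M0 π M) j) ∧
      ∀ x, (N₀ + symb b π 2 N₁) (g x) = g ((N₀ + t ^ 2 • symb b π 2 N₁) x) := by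
  have hG := h.split.toGrading
  refine ⟨R8b_g b π t, R8b_g b π t⁻¹, ?_, ?_, R8b_g_Tot hG t, R8b_g_Tot hG t⁻¹, ?_⟩
  · intro x
    rw [← Module.End.mul_apply, R8b_g_inv hG ht, Module.End.one_apply]
  · intro x
    have h1 := R8b_g_inv hG (inv_ne_zero ht)
    rw [inv_inv] at h1
    rw [← Module.End.mul_apply, h1, Module.End.one_apply]
  · have key : (N₀ + symb b π 2 N₁) * R8b_g b π t = R8b_g b π t * (N₀ + t ^ 2 • symb b π 2 N₁) := by
      apply hG.ext
      intro k
      have e1 : R8b_g b π t * (symb b π 2 N₁ * π k) = t ^ (k - 2) • (symb b π 2 N₁ * π k) := by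
        rw [symb_deg hG, ← mul_assoc, R8b_g_mul hG, smul_mul_assoc]
      have e2 : R8b_g b π t * (N₀ * π k) = t ^ k • (N₀ * π k) := by
        rw [h.comm₀ k, ← mul_assoc, R8b_g_mul hG, smul_mul_assoc]
      have e3 : t ^ 2 * t ^ (k - 2) = t ^ k := by
        rw [zpow_sub₀ ht, zpow_ofNat]
        field_simp
      rw [mul_assoc, R8b_g_mul hG, mul_smul_comm, add_mul, mul_assoc, add_mul, smul_mul_assoc, mul_add,
        mul_smul_comm, e1, e2, smul_smul, e3, smul_add]
    intro x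
    have := LinearMap.congr_fun key x
    rwa [Module.End.mul_apply, Module.End.mul_apply] at this

end Pool.Agent.AF37
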