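import Pool.Agent.LibAF37.R7
import Pool.Agent.LibAF37.R8a
import Pool.Agent.LibAF37.R8b

/-! R8 (MEDIUM): if W is the monodromy filtration of N₁ on H, then Tot is the one of N₁ + N₀. Plan: Pool.Agent.ND37.pencil (LibND37/Core) with N₀ := N₁, N₁ := N₀, m := a, hM := h.rel, hP := h.pure: for all v outside a finite
set there is M' with IsMono (N₀ + v • N₁) M' and PureGr q (a + s) F M' s; so M' = Tot by Sys.eq_Tot (N = N₀ + v • N₁, h.frob₀, h.frob₁). K is infinite (char 0), so t ≠ 0 with t ^ 2 outside the finite set exists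
(e.g. t = 1, 2, 3, ..: the map i ↦ ((i+1 : ℕ) : K) ^ 2 is injective; Set.infinite_of_injective_forall_mem or Set.Infinite.exists_notMem_finite). So IsMono (N₀ + t² • N₁) Tot; mono_perturb with D = - t² • (N₁ - symb b π 2 N₁)
(Sys.diff_Tot): IsMono (N₀ + t² • symb b π 2 N₁) Tot; mono_transport with Sys.conj: IsMono (N₀ + symb b π 2 N₁) Tot; mono_perturb with D = N₁ - symb b π 2 N₁: IsMono (N₀ + N₁) Tot. -/

namespace Pool.Agent.AF37

open Module Polynomial Pool.Agent.WM85 Pool.Agent.ND37 Pool.Agent.LibX1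

variable {K H : Type} [Field K] [AddCommGroup H] [Module K H]

private theorem R8_exists_sq [CharZero K] {S : Set K} (hS : S.Finite) :
    ∃ t : K, t ≠ 0 ∧ t ^ 2 ∉ S := by
  have hinj : Function.Injective (fun i : ℕ => ((i + 1 : ℕ) : K) ^ 2) := by
    intro i j hij
    have h1 : (((i + 1) ^ 2 : ℕ) : K) = (((j + 1) ^ 2 : ℕ) : K) := by
      simpa using hij
    have h2 : (i + 1) ^ 2 = (j + 1) ^ 2 := Nat.cast_injective h1
    have h3 : i + 1 = j + 1 := Nat.pow_left_injective (by norm_num) h2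
    omega
  obtain ⟨i, hi⟩ : ∃ i : ℕ, ((i + 1 : ℕ) : K) ^ 2 ∉ S := by
    by_contra hcon
    push Not at hcon
    exact (Set.infinite_of_injective_forall_mem hinj hcon) hS
  exact ⟨((i + 1 : ℕ) : K), Nat.cast_ne_zero.mpr (by omega), hi⟩

theorem Sys.forward [CharZero K] [FiniteDimensional K H] {q : ℕ} (hq : 1 < q) {b : ℕ} {W : ℤ → Submodule K H}
    {π : ℤ → Module.End K H} {a : ℤ} {N₀ N₁ F : Module.End K H} {M : ℤ → ℤ → Submodule K H}
    (h : Sys q b W π a N₀ N₁ F M) (hW : IsMono N₁ W) : IsMono (N₁ + N₀) (Tot π (M0 π M)) := by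
  have hcomm : ∀ x, N₁ (N₀ x) = N₀ (N₁ x) := by
    intro x
    have := LinearMap.congr_fun h.comm x
    simp only [Module.End.mul_apply] at this
    exact this.symm
  have hfin := pencil hq (m := a) hcomm h.frob₁ h.frob₀ hW h.rel h.pure
  obtain ⟨t, ht, hts⟩ := R8_exists_sq hfin
  simp only [Set.mem_setOf_eq, not_not] at hts
  obtain ⟨M', hM', hP'⟩ := hts
  have hF : ∀ x, (N₀ + t ^ 2 • N₁) (F x) = (q : K) • F ((N₀ + t ^ 2 • N₁) x) := by
    intro x
    simp only [LinearMap.add_apply, LinearMap.smul_apply, h.frob₀, h.frob₁, map_add, map_smul,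
      smul_add]
    rw [smul_comm (t ^ 2) (q : K)]
  have hE := h.eq_Tot hq hF hM' hP'
  subst hE
  have h1 : IsMono (N₀ + t ^ 2 • symb b π 2 N₁) (Tot π (M0 π M)) := by
    have := mono_perturb hM' (D := -(t ^ 2 • (N₁ - symb b π 2 N₁))) (fun s x hx => by
      rw [LinearMap.neg_apply, LinearMap.smul_apply]
      exact Submodule.neg_mem _ (Submodule.smul_mem _ _ (h.diff_Tot s x hx)))
    have he : N₀ + t ^ 2 • N₁ + -(t ^ 2 • (N₁ - symb b π 2 N₁)) = N₀ + t ^ 2 • symb b π 2 N₁ := by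
      rw [smul_sub]
      abel
    rwa [he] at this
  obtain ⟨g, g', hg1, hg2, hg, hg', hc⟩ := h.conj ht
  have h2 : IsMono (N₀ + symb b π 2 N₁) (Tot π (M0 π M)) := mono_transport h1 hg1 hg2 hg hg' hc
  have h3 := mono_perturb h2 (D := N₁ - symb b π 2 N₁) (fun s x hx => h.diff_Tot s x hx)
  have he : N₀ + symb b π 2 N₁ + (N₁ - symb b π 2 N₁) = N₁ + N₀ := by abel
  rwa [he] at h3

end Pool.Agent.AF37
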