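import Pool.Agent.LibAF37.SplitA

/-! S2 (SHORT/MEDIUM): the splitting on H. act K H e x = e • x (rfl or Algebra.lsmul_coe). Grading: map_mul, map_sum, map_one, map_zero of the algebra map act K H. mem_iff: x ∈ part K H W k: span_induction; for y = e • x with
e v ∈ W k: p j * e = 0 for j > k (hp.mem_iff), so p j • (e • x) = (p j * e) • x = 0. Conversely x = sum over Icc of p j • x (sum, act), the terms with j > k are 0, for j ≤ k p j has values in W k
(p l (p j v) = 0 for l ≠ j, so for l > k: mem_iff), subset_span. sys: choose M, hM, hP from h.wm (Classical: fun k => Classical.choose (h.wm k)); a + k + s = (a + k) + s. -/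

namespace Pool.Agent.AF37

open Module Polynomial Pool.Agent.WM85 Pool.Agent.ND37 Pool.Agent.LibX1

variable {K A V H : Type} [Field K] [Ring A] [Algebra K A] [AddCommGroup V] [Module K V] [Module A V]
  [IsScalarTower K A V] [AddCommGroup H] [Module K H] [Module (Module.End A V) H]
  [IsScalarTower K (Module.End A V) H]

theorem act_apply (e : Module.End A V) (x : H) : act K H e x = e • x := rfl

theorem SplitA.split {b : ℕ} {W : ℤ → Submodule A V} {p : ℤ → Module.End A V} (hp : SplitA b W p) :
    Split b (part K H W) (fun k => act K H (p k)) := by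
  have hsum : ∑ k ∈ Finset.Icc (-(b : ℤ)) b, act K H (p k) = 1 := by
    rw [← map_sum, hp.sum, map_one]
  refine { idem := ?_, orth := ?_, sum := hsum, mem_iff := ?_ }
  · intro k
    show act K H (p k) * act K H (p k) = act K H (p k)
    rw [← map_mul, hp.idem]
  · intro k l hkl
    show act K H (p k) * act K H (p l) = 0
    rw [← map_mul, hp.orth k l hkl, map_zero]
  · intro k x
    constructor
    · intro hx j hj
      show act K H (p j) x = 0
      unfold part at hx
      induction hx using Submodule.span_induction with
      | mem y hy =>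
        obtain ⟨e, he, z, rfl⟩ := hy
        have h1 : p j * e = 0 := by
          ext v
          rw [Module.End.mul_apply]
          exact (hp.mem_iff k (e v)).1 (he v) j hj
        rw [act_apply, smul_smul, h1, zero_smul]
      | zero => rw [map_zero]
      | add y z _ _ h1 h2 => rw [map_add, h1, h2, add_zero]
      | smul c y _ h1 => rw [map_smul, h1, smul_zero]
    · intro hx
      have h1 : x = ∑ j ∈ Finset.Icc (-(b : ℤ)) b, act K H (p j) x := by
        rw [← LinearMap.sum_apply, hsum, Module.End.one_apply]
      rw [h1]
      apply Submodule.sum_mem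
      intro j _
      by_cases hj : k < j
      · have h2 : act K H (p j) x = 0 := hx j hj
        rw [h2]
        exact Submodule.zero_mem _
      · apply Submodule.subset_span
        refine ⟨p j, fun v => (hp.mem_iff k _).2 (fun l hl => ?_), x, rfl⟩
        rw [← Module.End.mul_apply, hp.orth l j (by omega), LinearMap.zero_apply]

private theorem S2_shift {W : ℤ → Submodule A V} {N₁ : Module.End A V} (hV : Family W N₁) (k : ℤ) (x : H)
    (hx : x ∈ part K H W k) : act K H N₁ x ∈ part K H W (k - 2) := by
  unfold part at hx
  induction hx using Submodule.span_induction with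
  | mem y hy =>
    obtain ⟨e, he, z, rfl⟩ := hy
    apply Submodule.subset_span
    refine ⟨N₁ * e, fun v => ?_, z, ?_⟩
    · rw [Module.End.mul_apply]
      exact hV.shift k _ (he v)
    · rw [act_apply, smul_smul]
  | zero => rw [map_zero]; exact Submodule.zero_mem _
  | add y z _ _ h1 h2 => rw [map_add]; exact Submodule.add_mem _ h1 h2
  | smul c y _ h1 => rw [map_smul]; exact Submodule.smul_mem _ c h1

theorem Theory.sys {q : ℕ} {W : ℤ → Submodule A V} {N₁ : Module.End A V} (hV : Family W N₁) {a : ℤ}
    {N₀ F : Module.End K H} (h : Theory q W N₁ a N₀ F) {b : ℕ} {p : ℤ → Module.End A V} (hp : SplitA b W p) :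
    ∃ M : ℤ → ℤ → Submodule K H,
      Sys q b (part K H W) (fun k => act K H (p k)) a N₀ (act K H N₁) F M := by
  choose M hM hP using h.wm
  refine ⟨M, ⟨hp.split, ?_, ?_, ?_, h.frob₀, ?_, h.stable, hM, hP⟩⟩
  · intro k
    ext x
    exact h.comm (p k) x
  · ext x
    exact h.comm N₁ x
  · intro k x hx
    exact S2_shift hV k x hx
  · intro x
    exact h.frob₁ x

end Pool.Agent.AF37
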