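import Pool.Agent.LibAF37.Sys

/-!
Splittings of the filtration by idempotent endomorphisms.
-/

namespace Pool.Agent.AF37

open Module Polynomial Pool.Agent.WM85 Pool.Agent.ND37 Pool.Agent.LibX1

/-- `p` is a splitting of the filtration `W` by endomorphisms of the module `V`. -/
structure SplitA {A V : Type} [Ring A] [AddCommGroup V] [Module A V] (b : ℕ) (W : ℤ → Submodule A V)
    (p : ℤ → Module.End A V) : Prop where
  idem : ∀ k, p k * p k = p k
  orth : ∀ k l, k ≠ l → p k * p l = 0
  sum : ∑ k ∈ Finset.Icc (-(b : ℤ)) b, p k = 1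
  mem_iff : ∀ k v, v ∈ W k ↔ ∀ j, k < j → p j v = 0

end Pool.Agent.AF37
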