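import Pool.Agent.LibAF37.Defs
import Pool.Agent.LibND37.Core

/-!
The data on the space `H` of a theory.
-/

namespace Pool.Agent.AF37

open Module Pool.Agent.WM85 Pool.Agent.ND37 Pool.Agent.LibX1

variable {K H : Type} [Field K] [AddCommGroup H] [Module K H]

structure Sys (q : ℕ) (b : ℕ) (W : ℤ → Submodule K H) (π : ℤ → Module.End K H) (a : ℤ)
    (N₀ N₁ F : Module.End K H) (M : ℤ → ℤ → Submodule K H) : Prop where
  split : Split b W π
  comm₀ : ∀ k, N₀ * π k = π k * N₀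
  comm : N₀ * N₁ = N₁ * N₀
  shift : ∀ k, ∀ x ∈ W k, N₁ x ∈ W (k - 2)
  frob₀ : ∀ x, N₀ (F x) = (q : K) • F (N₀ x)
  frob₁ : ∀ x, N₁ (F x) = (q : K) • F (N₁ x)
  stable : ∀ k, ∀ x ∈ W k, F x ∈ W k
  rel : ∀ k, RelMono N₀ (W (k - 1)) (W k) (M k)
  pure : ∀ k s, PureGr q (a + k + s) F (M k) s

/-- The monodromy filtration of `N₀` on `H`. -/
def M0 (π : ℤ → Module.End K H) (M : ℤ → ℤ → Submodule K H) (s : ℤ) : Submodule K H :=
  ⨅ k, (M k s).comap (π k)

/-- The filtration by the total degree. -/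
def Tot (π : ℤ → Module.End K H) (P : ℤ → Submodule K H) (j : ℤ) : Submodule K H :=
  ⨅ k, (P (j - k)).comap (π k)

theorem mem_M0 {π : ℤ → Module.End K H} {M : ℤ → ℤ → Submodule K H} {s : ℤ} {x : H} :
    x ∈ M0 π M s ↔ ∀ k, π k x ∈ M k s := by
  simp [M0, Submodule.mem_iInf]

theorem mem_Tot {π : ℤ → Module.End K H} {P : ℤ → Submodule K H} {j : ℤ} {x : H} :
    x ∈ Tot π P j ↔ ∀ k, π k x ∈ P (j - k) := by
  simp [Tot, Submodule.mem_iInf]

theorem isMono_of_rel {N : Module.End K H} {M : ℤ → Submodule K H} (h : RelMono N ⊥ ⊤ M) :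
    IsMono N M where
  mono := h.mono
  bot := h.bot
  top := h.top
  shift := h.shift
  inj := h.inj
  surj := h.surj

theorem rel_of_isMono {N : Module.End K H} {M : ℤ → Submodule K H} (h : IsMono N M) :
    RelMono N ⊥ ⊤ M where
  ge _ := bot_le
  le _ := le_top
  mono := h.mono
  bot := h.bot
  top := h.top
  shift := h.shift
  inj := h.inj
  surj := h.surj

end Pool.Agent.AF37
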